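import Mathlib

set_option autoImplicit false

namespace Pool.Agent.Lib.helper9.BorsukUlam

/-- coboundary of a mod 2 cochain on lists -/
def d {P : Type} : (List P → ZMod 2) → List P → ZMod 2
  | _, [] => 0
  | φ, a :: l => φ l + d (fun m => φ (a :: m)) l

/-- prism operator on cochains -/
def pr {P : Type} (f g : P → P) : (List P → ZMod 2) → List P → ZMod 2
  | _, [] => 0
  | φ, a :: l => φ (f a :: g a :: l.map g) + pr f g (fun m => φ (f a :: m)) l

theorem d_add {P : Type} (l : List P) : ∀ φ ψ : List P → ZMod 2,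
    d (fun m => φ m + ψ m) l = d φ l + d ψ l := by
  induction l with
  | nil => intro φ ψ; simp [d]
  | cons a l ih => intro φ ψ; simp only [d]; rw [ih]; ring

theorem pr_add {P : Type} (f g : P → P) (l : List P) : ∀ φ ψ : List P → ZMod 2,
    pr f g (fun m => φ m + ψ m) l = pr f g φ l + pr f g ψ l := by
  induction l with
  | nil => intro φ ψ; simp [pr]
  | cons a l ih => intro φ ψ; simp only [pr]; rw [ih]; ring

theorem d_map {P Q : Type} (g : P → Q) (l : List P) : ∀ φ : List Q → ZMod 2,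
    d (fun m => φ (m.map g)) l = d φ (l.map g) := by
  induction l with
  | nil => intro φ; simp [d]
  | cons a l ih => intro φ; simp only [d, List.map_cons]; rw [← ih]

theorem two (x : ZMod 2) : x + x = 0 := by
  revert x; decide

theorem prism {P : Type} (f g : P → P) (l : List P) : ∀ φ : List P → ZMod 2,
    pr f g (d φ) l = d (pr f g φ) l + φ (l.map f) + φ (l.map g) := by
  induction l with
  | nil => intro φ; simp [d, pr, two]
  | cons a l ih =>
    intro φ
    simp only [d, pr, List.map_cons]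
    rw [pr_add f g l φ (d fun m => φ (f a :: m)), ih,
      d_add l (fun m => φ (f a :: g a :: m.map g)) (pr f g fun m => φ (f a :: m)),
      d_map g l (fun m => φ (f a :: g a :: m))]
    have := two (φ (f a :: l.map g))
    linear_combination this

theorem pr_zero {P : Type} (f g : P → P) (l : List P) : ∀ φ : List P → ZMod 2,
    (∀ m : List P, m.length = l.length + 1 → (∀ x ∈ m, ∃ y ∈ l, x = f y ∨ x = g y) → φ m = 0) →
      pr f g φ l = 0 := by
  induction l with
  | nil => intro φ _; rfl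
  | cons a l ih =>
    intro φ h
    simp only [pr]
    rw [h, ih, add_zero]
    · intro m hm hx
      apply h _ (by simp [hm])
      intro x hx'
      rcases List.mem_cons.1 hx' with rfl | hx'
      · exact ⟨a, by simp, Or.inl rfl⟩
      · obtain ⟨y, hy, e⟩ := hx x hx'
        exact ⟨y, by simp [hy], e⟩
    · simp
    · intro x hx'
      simp only [List.mem_cons, List.mem_map] at hx'
      rcases hx' with rfl | rfl | ⟨y, hy, rfl⟩
      · exact ⟨a, by simp, Or.inl rfl⟩
      · exact ⟨a, by simp, Or.inr rfl⟩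
      · exact ⟨y, by simp [hy], Or.inr rfl⟩

theorem d_perm {P : Type} {l l' : List P} (h : l.Perm l') : ∀ φ : List P → ZMod 2,
    (∀ m m', m.Perm m' → φ m = φ m') → d φ l = d φ l' := by
  induction h with
  | nil => intro _ _; rfl
  | cons a h ih =>
    intro φ hφ
    simp only [d]
    rw [hφ _ _ h, ih _ fun m m' e => hφ _ _ (e.cons a)]
  | swap a b l =>
    intro φ hφ
    simp only [d]
    have : (fun m => φ (b :: a :: m)) = fun m => φ (a :: b :: m) :=
      funext fun m => hφ _ _ (List.Perm.swap _ _ _)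
    rw [this]; ring
  | trans _ _ ih1 ih2 => intro φ hφ; rw [ih1 φ hφ, ih2 φ hφ]

theorem d_congr {P : Type} (l : List P) : ∀ φ ψ : List P → ZMod 2,
    (∀ m, m.Sublist l → φ m = ψ m) → d φ l = d ψ l := by
  induction l with
  | nil => intro _ _ _; rfl
  | cons a l ih =>
    intro φ ψ h
    simp only [d]
    rw [h l (List.sublist_cons_self a l), ih _ _ fun m hm => h _ (hm.cons_cons a)]

/-- indicator of alternating parity, the first parity being different from `t` -/
def A : ZMod 2 → List ℕ → ZMod 2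
  | _, [] => 1
  | t, a :: l => ((a : ZMod 2) + t) * A (a : ZMod 2) l

theorem d_A (l : List ℕ) : ∀ t, d (A t) l = A 0 l + A 1 l := by
  induction l with
  | nil => intro t; simp only [d, A]; decide
  | cons a l ih =>
    intro t
    simp only [d, A]
    have e : ∀ (c : ZMod 2) (φ : List ℕ → ZMod 2) (l : List ℕ), d (fun m => c * φ m) l = c * d φ l := by
      intro c φ l
      induction l generalizing φ with
      | nil => simp [d]
      | cons b l ih => simp only [d]; rw [ih]; ring
    rw [e, ih]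
    generalize (a : ZMod 2) = s
    have : ∀ s : ZMod 2, s = 0 ∨ s = 1 := by decide
    rcases this s with rfl | rfl <;> rcases this t with rfl | rfl <;>
      generalize A 0 l = x <;> generalize A 1 l = y <;> revert x y <;> decide

/-- the complementary label -/
def nu (a : ℕ) : ℕ := if a % 2 = 0 then a + 1 else a - 1

theorem nu_cast (a : ℕ) : ((nu a : ℕ) : ZMod 2) = a + 1 := by
  unfold nu
  split_ifs with h
  · simp
  · obtain ⟨b, rfl⟩ : ∃ b, a = b + 1 := ⟨a - 1, by omega⟩
    simp only [Nat.add_sub_cancel, Nat.cast_add, Nat.cast_one]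
    generalize (b : ZMod 2) = s
    revert s; decide

theorem A_nu (l : List ℕ) : ∀ t, A t (l.map nu) = A (t + 1) l := by
  induction l with
  | nil => intro t; rfl
  | cons a l ih =>
    intro t
    simp only [List.map_cons, A, ih, nu_cast]
    have : (a : ZMod 2) + 1 + 1 = a := by generalize (a : ZMod 2) = s; revert s; decide
    rw [this]; ring

theorem A_len (n : ℕ) (l : List ℕ) : ∀ t r, r ≤ n → l.Pairwise (· ≤ ·) →
    (∀ a ∈ l, ∀ b ∈ l, a ≠ nu b) → (∀ a ∈ l, a < 2 * n ∧ r ≤ a / 2) → A t l ≠ 0 →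
    l.length + r ≤ n := by
  induction l with
  | nil => intro t r h _ _ _ _; simpa using h
  | cons a l ih =>
    intro t r _ h1 h2 h3 h4
    rw [List.pairwise_cons] at h1
    have ha := h3 a (by simp)
    have h5 : A a l ≠ 0 := fun e => h4 (by simp [A, e])
    have := ih a (a / 2 + 1) (by omega) h1.2
      (fun x hx y hy => h2 x (by simp [hx]) y (by simp [hy])) (fun x hx => ⟨(h3 x (by simp [hx])).1, by
        cases l with
        | nil => simp at hx
        | cons b l =>
          have e1 : (b : ZMod 2) + a ≠ 0 := fun e => h5 (by simp [A, e])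
          have e2 : a % 2 ≠ b % 2 := by
            intro e
            apply e1
            rw [(ZMod.natCast_eq_natCast_iff' a b 2).2 e, two]
          have e3 := h2 a (by simp) b (by simp)
          have e4 := h1.1 b (by simp)
          have e5 : b ≤ x := by
            rcases List.mem_cons.1 hx with rfl | hx
            · exact le_rfl
            · exact (List.pairwise_cons.1 h1.2).1 x hx
          unfold nu at e3
          split_ifs at e3 <;> omega⟩) h5
    simp only [List.length_cons]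
    omega

/-- sorted list -/
def srt (l : List ℕ) : List ℕ := l.mergeSort (fun a b => decide (a ≤ b))

theorem srt_perm (l : List ℕ) : (srt l).Perm l := List.mergeSort_perm _ _

theorem srt_pw (l : List ℕ) : (srt l).Pairwise (· ≤ ·) := by
  have := List.pairwise_mergeSort (le := fun a b : ℕ => decide (a ≤ b))
    (fun a b c => by simp only [decide_eq_true_eq]; omega)
    (fun a b => by simp only [Bool.or_eq_true, decide_eq_true_eq]; omega) l
  simpa [srt] using this

theorem srt_eq {l m : List ℕ} (h : m.Perm l) (hm : m.Pairwise (· ≤ ·)) : srt l = m :=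
  List.Perm.eq_of_pairwise (fun _ _ _ _ => le_antisymm) (srt_pw l) hm ((srt_perm l).trans h.symm)

theorem d_srt (l : List ℕ) : d (fun m => A 0 (srt m)) l = A 0 (srt l) + A 1 (srt l) := by
  rw [← d_perm (srt_perm l) _ fun m m' e => by
    rw [srt_eq ((srt_perm m').trans e.symm) (srt_pw m')], ← d_A _ 0]
  exact d_congr _ _ _ fun m hm => by rw [srt_eq (List.Perm.refl m) ((srt_pw l).sublist hm)]

theorem srt_nu (l : List ℕ) (h : ∀ a ∈ l, ∀ b ∈ l, a ≠ nu b) :
    srt (l.map nu) = (srt l).map nu := by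
  apply srt_eq ((srt_perm l).map nu)
  rw [List.pairwise_map]
  refine (srt_pw l).imp_of_mem fun {a b} ha hb hab => ?_
  have := h a ((srt_perm l).subset ha) b ((srt_perm l).subset hb)
  unfold nu at this ⊢
  split_ifs at this ⊢ <;> omega

/-- the `k`-dimensional `ℓ¹` sphere inside `ℝ^(n+1)` -/
def S (n k : ℕ) : Set (Fin (n + 1) → ℝ) :=
  {x | ∑ j, |x j| = 1 ∧ ∀ j : Fin (n + 1), k < (j : ℕ) → x j = 0}

/-- fine `k`-simplices -/
def Good (n k : ℕ) (δ : ℝ) (l : List (Fin (n + 1) → ℝ)) : Prop :=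
  l.length = k + 1 ∧ (∀ x ∈ l, x ∈ S n k) ∧ ∀ x ∈ l, ∀ y ∈ l, dist x y ≤ δ

theorem S_neg {n k : ℕ} {x : Fin (n + 1) → ℝ} (h : x ∈ S n k) : -x ∈ S n k :=
  ⟨by simpa using h.1, fun j hj => by simp [h.2 j hj]⟩

theorem S_mono {n k : ℕ} {x : Fin (n + 1) → ℝ} (h : x ∈ S n k) : x ∈ S n n :=
  ⟨h.1, fun j hj => absurd j.2 (by omega)⟩

theorem S_norm {n k : ℕ} {x : Fin (n + 1) → ℝ} (h : x ∈ S n k) : ‖x‖ ≤ 1 := by
  rw [pi_norm_le_iff_of_nonneg zero_le_one]
  intro j
  rw [← h.1]
  exact Finset.single_le_sum (f := fun j => |x j|) (fun _ _ => abs_nonneg _) (Finset.mem_univ j)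

theorem Good_neg {n k : ℕ} {δ : ℝ} {l : List (Fin (n + 1) → ℝ)} (h : Good n k δ l) :
    Good n k δ (l.map Neg.neg) := by
  refine ⟨by simp [h.1], ?_, ?_⟩
  · intro x hx
    obtain ⟨y, hy, rfl⟩ := List.mem_map.1 hx
    exact S_neg (h.2.1 y hy)
  · intro x hx y hy
    obtain ⟨x, hx', rfl⟩ := List.mem_map.1 hx
    obtain ⟨y, hy', rfl⟩ := List.mem_map.1 hy
    simpa using h.2.2 x hx' y hy'

theorem S_single {n : ℕ} (i : Fin (n + 1)) : Pi.single i (1 : ℝ) ∈ S n i := by
  refine ⟨?_, fun j hj => Pi.single_eq_of_ne (fun e => by simp [e] at hj) _⟩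
  rw [Finset.sum_eq_single i] <;> simp +contextual

theorem S_step {n k : ℕ} (hk : k + 1 < n + 1) {x : Fin (n + 1) → ℝ} (h : x ∈ S n k) {t : ℝ}
    (h0 : 0 ≤ t) (h1 : t ≤ 1) :
    (1 - t) • x + t • (Pi.single (⟨k + 1, hk⟩ : Fin (n + 1)) (1 : ℝ) : Fin (n + 1) → ℝ) ∈
      S n (k + 1) := by
  have he := S_single (⟨k + 1, hk⟩ : Fin (n + 1))
  set e : Fin (n + 1) → ℝ := Pi.single (⟨k + 1, hk⟩ : Fin (n + 1)) (1 : ℝ) with hee
  refine ⟨?_, fun j hj => ?_⟩
  · have : ∀ j, |((1 - t) • x + t • e) j| = (1 - t) * |x j| + t * |e j| := by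
      intro j
      by_cases hj : j = ⟨k + 1, hk⟩
      · have : x j = 0 := h.2 j (by simp [hj])
        simp [this, abs_mul, abs_of_nonneg h0]
      · have : e j = 0 := Pi.single_eq_of_ne hj _
        simp [this, abs_mul, abs_of_nonneg (sub_nonneg.2 h1)]
    simp only [this, Finset.sum_add_distrib, ← Finset.mul_sum, h.1, he.1]
    ring
  · simp [h.2 j (by omega), he.2 j hj]

theorem extend {n k : ℕ} (hk : k + 1 < n + 1) {δ : ℝ} (hδ : 0 < δ)
    (Z : (List (Fin (n + 1) → ℝ) → ZMod 2) → ZMod 2)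
    (z1 : ∀ φ ψ, Z (fun m => φ m + ψ m) = Z φ + Z ψ)
    (z2 : ∀ φ, (∀ l, Good n k (δ / 2) l → φ l = 0) → Z φ = 0) (z3 : ∀ φ, Z (d φ) = 0) :
    ∃ T : (List (Fin (n + 1) → ℝ) → ZMod 2) → ZMod 2,
      (∀ φ ψ, T (fun m => φ m + ψ m) = T φ + T ψ) ∧
      (∀ φ, (∀ l, Good n (k + 1) δ l → φ l = 0) → T φ = 0) ∧ ∀ φ, T (d φ) = Z φ := by
  obtain ⟨N, hN⟩ := exists_nat_gt (4 / δ)
  have N0 : (0 : ℝ) < N := lt_trans (by positivity) hN
  have he := S_single (⟨k + 1, hk⟩ : Fin (n + 1))
  have hs := fun x (h : x ∈ S n k) t h0 h1 => S_step hk (x := x) h (t := t) h0 h1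
  set e : Fin (n + 1) → ℝ := Pi.single (⟨k + 1, hk⟩ : Fin (n + 1)) (1 : ℝ) with hee
  let H : ℕ → (Fin (n + 1) → ℝ) → (Fin (n + 1) → ℝ) := fun j x =>
    (1 - (j : ℝ) / N) • x + ((j : ℝ) / N) • e
  have H0 : H 0 = id := by funext x; simp [H]
  have HN : ∀ x, H N x = e := by intro x; simp [H, N0.ne']
  have HS : ∀ j ≤ N, ∀ x ∈ S n k, H j x ∈ S n (k + 1) := fun j hj x hx =>
    hs x hx _ (by positivity) (by rw [div_le_one N0]; exact_mod_cast hj)
  have HD : ∀ i ≤ N, ∀ j : ℕ, |(j : ℝ) - i| ≤ 1 → ∀ x, ∀ y ∈ S n k, dist x y ≤ δ / 2 →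
      dist (H i x) (H j y) ≤ δ := by
    intro i hi j hj x y hy hxy
    have : H i x - H j y = (1 - (i : ℝ) / N) • (x - y) + (((j : ℝ) - i) / N) • (y - e) := by
      simp only [H, sub_div]
      module
    rw [dist_eq_norm, this]
    refine (norm_add_le _ _).trans ?_
    rw [norm_smul, norm_smul, ← dist_eq_norm x y, Real.norm_eq_abs, Real.norm_eq_abs, abs_div,
      abs_of_pos N0]
    have a1 : (i : ℝ) / N ≤ 1 := by rw [div_le_one N0]; exact_mod_cast hi
    have a2 : 0 ≤ (i : ℝ) / N := by positivity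
    rw [abs_of_nonneg (sub_nonneg.2 a1)]
    have a3 : ‖y - e‖ ≤ 2 := (norm_sub_le _ _).trans (by linarith [S_norm hy, S_norm he])
    have a4 : |(j : ℝ) - i| / N * ‖y - e‖ ≤ 1 / N * 2 := by gcongr
    have a5 : 1 / N * 2 ≤ δ / 2 := by
      rw [div_lt_iff₀ hδ] at hN
      rw [div_mul_eq_mul_div, div_le_iff₀ N0]
      linarith
    nlinarith [mul_nonneg a2 (dist_nonneg (x := x) (y := y))]
  refine ⟨fun φ => ∑ j ∈ Finset.range N, Z (pr (H j) (H (j + 1)) φ) +
    Z (fun l => φ (e :: l.map (H N))), ?_, ?_, ?_⟩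
  · intro φ ψ
    have : ∀ j, pr (H j) (H (j + 1)) (fun m => φ m + ψ m) =
        fun l => pr (H j) (H (j + 1)) φ l + pr (H j) (H (j + 1)) ψ l :=
      fun j => funext fun l => pr_add _ _ l _ _
    simp only [this, z1, Finset.sum_add_distrib]
    ring
  · intro φ hφ
    beta_reduce
    rw [Finset.sum_eq_zero, z2, add_zero]
    · intro l hl
      have : ∀ x ∈ e :: l.map (H N), x = e := by
        intro x hx
        simp only [List.mem_cons, List.mem_map] at hx
        rcases hx with rfl | ⟨y, _, rfl⟩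
        · rfl
        · exact HN y
      refine hφ _ ⟨by simp [hl.1], fun x hx => ?_, fun x hx y hy => ?_⟩
      · rw [this x hx]; exact he
      · rw [this x hx, this y hy, dist_self]; exact hδ.le
    · intro j hj
      have hj := Finset.mem_range.1 hj
      refine z2 _ fun l hl => pr_zero _ _ l φ fun m hm hx => hφ m ⟨by rw [hm, hl.1], ?_, ?_⟩
      · intro x hx'
        obtain ⟨y, hy, rfl | rfl⟩ := hx x hx'
        · exact HS _ (by omega) _ (hl.2.1 y hy)
        · exact HS _ (by omega) _ (hl.2.1 y hy)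
      · intro x hx' y hy'
        obtain ⟨x, hx1, rfl | rfl⟩ := hx x hx' <;> obtain ⟨y, hy1, rfl | rfl⟩ := hx y hy' <;>
          exact HD _ (by omega) _ (by simp) _ _ (hl.2.1 y hy1) (hl.2.2 x hx1 y hy1)
  · intro φ
    have e1 : ∀ j, Z (pr (H j) (H (j + 1)) (d φ)) =
        Z (fun l => φ (l.map (H j))) + Z (fun l => φ (l.map (H (j + 1)))) := by
      intro j
      have : pr (H j) (H (j + 1)) (d φ) = _ := funext fun l => prism (H j) (H (j + 1)) l φ
      rw [this, z1, z1, z3, zero_add]
    have e2 : Z (fun l => d φ (e :: l.map (H N))) = Z (fun l => φ (l.map (H N))) := by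
      simp only [d]
      rw [z1, funext fun l => (d_map (H N) l fun m => φ (e :: m)).symm, z3, add_zero]
    have e3 : ∀ (a : ℕ → ZMod 2) (M : ℕ), ∑ j ∈ Finset.range M, (a j + a (j + 1)) + a M = a 0 := by
      intro a M
      induction M with
      | zero => simp
      | succ M ih =>
        rw [Finset.sum_range_succ, ← ih]
        have := two (a (M + 1))
        linear_combination this
    simp only [e1, e2]
    rw [e3 (fun j => Z (fun l => φ (l.map (H j))))]
    simp [H0]

theorem tucker (n : ℕ) {ε : ℝ} (hε : 0 < ε) (lab : (Fin (n + 1) → ℝ) → ℕ)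
    (h1 : ∀ x ∈ S n n, lab (-x) = nu (lab x)) (h2 : ∀ x ∈ S n n, lab x < 2 * n)
    (h3 : ∀ x ∈ S n n, ∀ y ∈ S n n, dist x y ≤ ε → lab x ≠ nu (lab y)) : False := by
  have nc : ∀ k δ l, δ ≤ ε → Good n k δ l → ∀ a ∈ l.map lab, ∀ b ∈ l.map lab, a ≠ nu b := by
    intro k δ l hδ hl a ha b hb
    obtain ⟨x, hx, rfl⟩ := List.mem_map.1 ha
    obtain ⟨y, hy, rfl⟩ := List.mem_map.1 hb
    exact h3 x (S_mono (hl.2.1 x hx)) y (S_mono (hl.2.1 y hy)) ((hl.2.2 x hx y hy).trans hδ)
  have key : ∀ k, k < n + 1 → ∀ δ, 0 < δ → δ ≤ ε →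
      ∃ T : (List (Fin (n + 1) → ℝ) → ZMod 2) → ZMod 2,
      (∀ φ ψ, T (fun m => φ m + ψ m) = T φ + T ψ) ∧
      (∀ φ, (∀ l, Good n k δ l → φ l = 0) → T φ = 0) ∧
      (∀ φ, T (d φ) + T (fun m => d φ (m.map Neg.neg)) = 0) ∧
      T (d fun m => A 0 (srt (m.map lab))) = 1 := by
    intro k
    induction k with
    | zero =>
      intro _ δ hδ _
      refine ⟨fun φ => φ [Pi.single 0 1], fun _ _ => rfl, fun φ h => h _ ⟨rfl, ?_, ?_⟩, ?_, ?_⟩
      · simpa using S_single (0 : Fin (n + 1))
      · simpa using hδ.le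
      · intro φ; simp [d, two]
      · simp [d, srt, A]
    | succ k ih =>
      intro hk δ hδ hδ'
      obtain ⟨T, t1, t2, t3, t4⟩ := ih (by omega) (δ / 2) (by positivity) (by linarith)
      obtain ⟨U, u1, u2, u3⟩ := extend hk hδ (fun φ => T φ + T fun m => φ (m.map Neg.neg))
        (fun φ ψ => by simp only [t1]; ring)
        (fun φ h => by
          show T φ + T (fun m => φ (m.map Neg.neg)) = 0
          rw [t2 φ h, t2 _ fun l hl => h _ (Good_neg hl), add_zero]) t3
      refine ⟨U, u1, u2, fun φ => ?_, ?_⟩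
      · rw [funext fun m => (d_map Neg.neg m φ).symm, u3, u3]
        simp only [List.map_map]
        have : (Neg.neg ∘ Neg.neg : (Fin (n + 1) → ℝ) → _) = id := by funext x; simp
        simp only [this, List.map_id]
        rw [add_comm (T fun m => _), two]
      · rw [u3, ← t4]
        have := t2 (fun m => (A 0 (srt (m.map lab)) + A 0 (srt ((m.map Neg.neg).map lab))) +
          d (fun m => A 0 (srt (m.map lab))) m) fun l hl => by
            have e : (l.map Neg.neg).map lab = (l.map lab).map nu := by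
              rw [List.map_map, List.map_map]
              exact List.map_congr_left fun x hx => h1 x (S_mono (hl.2.1 x hx))
            rw [d_map lab l fun m => A 0 (srt m), d_srt, e,
              srt_nu _ (nc _ _ l (by linarith) hl), A_nu, zero_add, two]
        rw [t1, t1] at this
        have e := two (T (d fun m => A 0 (srt (m.map lab))))
        linear_combination this - e
  obtain ⟨T, -, t2, -, t4⟩ := key n (by omega) ε hε le_rfl
  rw [t2] at t4
  · exact zero_ne_one t4
  · intro l hl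
    have : ∀ t, A t (srt (l.map lab)) = 0 := by
      intro t
      by_contra h
      have p := srt_perm (l.map lab)
      have := A_len n _ t 0 (by omega) (srt_pw _)
        (fun a ha b hb => nc _ _ l le_rfl hl a (p.subset ha) b (p.subset hb))
        (fun a ha => by
          obtain ⟨x, hx, rfl⟩ := List.mem_map.1 (p.subset ha)
          exact ⟨h2 x (hl.2.1 x hx), by omega⟩) h
      rw [p.length_eq, List.length_map, hl.1] at this
      omega
    rw [d_map lab l fun m => A 0 (srt m), d_srt, this, this, add_zero]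

/-- Borsuk-Ulam on the `ℓ¹` sphere -/
theorem borsuk_ulam_l1 (n : ℕ) (f : (Fin (n + 1) → ℝ) → (Fin n → ℝ))
    (hf : ContinuousOn f (S n n)) (ho : ∀ x ∈ S n n, f (-x) = -f x) : ∃ x ∈ S n n, f x = 0 := by
  classical
  by_contra hne
  push Not at hne
  have hc : IsCompact (S n n) := by
    refine Metric.isCompact_of_isClosed_isBounded ?_
      ((Metric.isBounded_closedBall (x := 0) (r := 1)).subset fun x hx => by simpa using S_norm hx)
    have : S n n = {x | ∑ j, |x j| = 1} := by
      ext x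
      exact ⟨fun h => h.1, fun h => ⟨h, fun j hj => absurd j.2 (by omega)⟩⟩
    rw [this]
    exact isClosed_eq (by fun_prop) continuous_const
  obtain ⟨x0, hx0, hm⟩ := hc.exists_isMinOn ⟨_, S_mono (S_single 0)⟩ hf.norm
  have m0 : 0 < ‖f x0‖ := norm_pos_iff.2 (hne x0 hx0)
  obtain ⟨δ, hδ, hu⟩ := Metric.uniformContinuousOn_iff.1 (hc.uniformContinuousOn_of_continuous hf)
    _ m0
  have ex : ∀ g : Fin n → ℝ, ∃ i : ℕ, ‖f x0‖ ≤ ‖g‖ → ∃ h : i < n, ‖f x0‖ ≤ ‖g ⟨i, h⟩‖ := by
    intro g
    by_cases h : ‖f x0‖ ≤ ‖g‖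
    · by_contra h'
      push Not at h'
      exact absurd ((pi_norm_lt_iff m0).2 fun i : Fin n => (h' i).2 i.2) (not_lt.2 h)
    · exact ⟨0, fun h' => absurd h' h⟩
  choose ix hix using ex
  have hx : ∀ x ∈ S n n, ∃ h : ix (fun i => |f x i|) < n, ‖f x0‖ ≤ |f x ⟨_, h⟩| := by
    intro x hx
    have e : ‖fun i => |f x i|‖ = ‖f x‖ := by simp [Pi.norm_def, Real.nnnorm_abs]
    obtain ⟨h, h'⟩ := hix (fun i => |f x i|) (by rw [e]; exact hm hx)
    exact ⟨h, by simpa using h'⟩
  let lab : (Fin (n + 1) → ℝ) → ℕ := fun x => 2 * ix (fun i => |f x i|) +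
    if ∃ h : ix (fun i => |f x i|) < n, 0 < f x ⟨_, h⟩ then 1 else 0
  refine tucker n (half_pos hδ) lab (fun x hx' => ?_) (fun x hx' => ?_) fun x hx' y hy' hxy e => ?_
  · obtain ⟨h, h'⟩ := hx x hx'
    simp only [lab, ho x hx', Pi.neg_apply, abs_neg, h, exists_true_left, nu]
    rcases lt_trichotomy (f x ⟨_, h⟩) 0 with c | c | c
    · simp [c, not_lt.2 c.le]
    · rw [c, abs_zero] at h'; linarith
    · simp [c, not_lt.2 c.le]
  · obtain ⟨h, _⟩ := hx x hx'
    simp only [lab]
    split_ifs <;> omega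
  · obtain ⟨h, h'⟩ := hx x hx'
    obtain ⟨g, g'⟩ := hx y hy'
    have e1 := hu x hx' y hy' (by linarith)
    simp only [lab, h, g, exists_true_left, nu] at e
    have e2 : ix (fun i => |f x i|) = ix (fun i => |f y i|) := by split_ifs at e <;> omega
    have e3 : (⟨_, h⟩ : Fin n) = ⟨_, g⟩ := Fin.ext e2
    have e4 := (dist_le_pi_dist (f x) (f y) ⟨_, g⟩).trans_lt e1
    rw [e3] at h' e
    rw [Real.dist_eq, abs_lt] at e4
    by_cases c1 : 0 < f x ⟨_, g⟩ <;> by_cases c2 : 0 < f y ⟨_, g⟩
    · simp only [c1, c2, if_true] at e; split_ifs at e <;> omega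
    · rw [abs_of_pos c1] at h'; rw [abs_of_nonpos (not_lt.1 c2)] at g'; linarith
    · rw [abs_of_pos c2] at g'; rw [abs_of_nonpos (not_lt.1 c1)] at h'; linarith
    · simp only [c1, c2, if_false] at e; split_ifs at e <;> omega

/-- Borsuk-Ulam for finite-dimensional targets and arbitrary norms -/
theorem borsuk_ulam {E F : Type*} [NormedAddCommGroup E] [NormedSpace ℝ E] [NormedAddCommGroup F]
    [NormedSpace ℝ F] [FiniteDimensional ℝ F]
    (h : (Module.finrank ℝ F : Cardinal) < Module.rank ℝ E ∨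
      Module.finrank ℝ F < Module.finrank ℝ E) (f : E → F)
    (hf : ContinuousOn f {x | ‖x‖ = 1}) (ho : ∀ x, ‖x‖ = 1 → f (-x) = -f x) :
    ∃ x, ‖x‖ = 1 ∧ f x = 0 := by
  set n := Module.finrank ℝ F with hn
  obtain ⟨v, hv⟩ : ∃ v : Fin (n + 1) → E, LinearIndependent ℝ v := by
    rcases h with h | h
    · apply exists_linearIndependent_of_le_rank
      exact_mod_cast Order.succ_le_of_lt h
    · exact exists_linearIndependent_of_le_finrank h
  let L : (Fin (n + 1) → ℝ) →ₗ[ℝ] E := Fintype.linearCombination ℝ v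
  have L0 : ∀ x ∈ S n n, ‖L x‖ ≠ 0 := by
    intro x hx e
    have := Fintype.linearIndependent_iff.1 hv x
      (by simpa [L, Fintype.linearCombination_apply] using norm_eq_zero.1 e)
    have h1 := hx.1
    simp [this] at h1
  have Lc : Continuous L := L.continuous_of_finiteDimensional
  have L1 : ∀ x ∈ S n n, ‖‖L x‖⁻¹ • L x‖ = 1 := fun x hx => by
    rw [norm_smul, norm_inv, norm_norm, inv_mul_cancel₀ (L0 x hx)]
  let b : F ≃L[ℝ] (Fin n → ℝ) := (Module.finBasis ℝ F).equivFunL
  obtain ⟨x, hx, e⟩ := borsuk_ulam_l1 n (fun x => b (f (‖L x‖⁻¹ • L x)))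
    (b.continuous.comp_continuousOn (hf.comp
      ((Lc.norm.continuousOn.inv₀ L0).smul Lc.continuousOn) L1)) fun x hx => by
      simp only [map_neg, norm_neg, smul_neg, ho _ (L1 x hx)]
  exact ⟨_, L1 x hx, by simpa using e⟩

/-- Krein-Krasnoselskii-Milman lemma -/
theorem kkm {E : Type*} [NormedAddCommGroup E] [NormedSpace ℝ E] (X Y : Submodule ℝ E)
    [FiniteDimensional ℝ Y] (h : ∀ x ∈ X, ‖x‖ = 1 → ∃ y ∈ Y, ‖x - y‖ < 1) :
    FiniteDimensional ℝ X ∧ Module.finrank ℝ X ≤ Module.finrank ℝ Y := by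
  have key : ¬((Module.finrank ℝ Y : Cardinal) < Module.rank ℝ X ∨
      Module.finrank ℝ Y < Module.finrank ℝ X) := by
    intro hlt
    obtain ⟨g, hg⟩ := exists_continuous_forall_mem_convex_of_local_const (X := X) (E := Y)
      (t := fun x => {y : Y | ‖x‖ = 1 → ‖(x : E) - y‖ < 1})
      (fun x => by
        by_cases hx : ‖x‖ = 1
        · have : {y : Y | ‖x‖ = 1 → ‖(x : E) - y‖ < 1} = Y.subtype ⁻¹' Metric.ball (x : E) 1 := by
            ext y; simp [hx, dist_eq_norm, norm_sub_rev]
          rw [this]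
          exact (convex_ball _ _).linear_preimage _
        · have : {y : Y | ‖x‖ = 1 → ‖(x : E) - y‖ < 1} = Set.univ :=
            Set.eq_univ_of_forall fun y hy => absurd hy hx
          rw [this]
          exact convex_univ)
      (fun x => by
        by_cases hx : ‖x‖ = 1
        · obtain ⟨y, hy, e⟩ := h x x.2 hx
          refine ⟨⟨y, hy⟩, ?_⟩
          have : ContinuousAt (fun z : X => ‖(z : E) - y‖) x := by fun_prop
          exact (this.eventually (gt_mem_nhds e)).mono fun z hz _ => hz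
        · refine ⟨0, ?_⟩
          have : ContinuousAt (fun z : X => ‖z‖) x := by fun_prop
          exact (this.eventually_ne hx).mono fun z hz hz' => absurd hz' hz)
    obtain ⟨x, hx, e⟩ := borsuk_ulam hlt (fun x : X => g x - g (-x))
      (by fun_prop) fun x _ => by simp
    have h1 := hg x hx
    have h2 := hg (-x) (by simpa using hx)
    rw [← sub_eq_zero.1 e] at h2
    have h3 : (2 : ℝ) • (x : E) = ((x : E) - g x) - (((-x : X) : E) - g x) := by
      simp [two_smul]
    have h4 := norm_sub_le ((x : E) - g x) (((-x : X) : E) - g x)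
    rw [← h3, norm_smul] at h4
    have : ‖(x : E)‖ = 1 := hx
    rw [this] at h4
    norm_num at h4 h1 h2
    linarith
  push Not at key
  refine ⟨?_, key.2⟩
  have := key.1
  exact Module.rank_lt_aleph0_iff.1 (this.trans_lt (Cardinal.natCast_lt_aleph0))

end Pool.Agent.Lib.helper9.BorsukUlam
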