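import Mathlib

set_option autoImplicit false

namespace Pool.Agent.Lib.helper9.Birkhoff

open MeasureTheory Filter Topology Set MeasurableSpace

variable {X : Type*} [MeasurableSpace X] {μ : Measure X} {T : X → X}

/-- running maximum of Birkhoff sums -/
noncomputable def M (T : X → X) (φ : X → ℝ) : ℕ → X → ℝ
  | 0 => fun _ => 0
  | n + 1 => fun x => max 0 (φ x + M T φ n (T x))

omit [MeasurableSpace X] in
theorem M_nonneg (φ : X → ℝ) (n : ℕ) (x : X) : 0 ≤ M T φ n x := by
  cases n
  · exact le_rfl
  · exact le_max_left _ _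

omit [MeasurableSpace X] in
theorem M_mono (φ : X → ℝ) (n : ℕ) : ∀ x, M T φ n x ≤ M T φ (n + 1) x := by
  induction n with
  | zero => exact fun x => M_nonneg φ 1 x
  | succ n ih => exact fun x => max_le_max le_rfl (by linarith [ih (T x)])

omit [MeasurableSpace X] in
theorem le_M (φ : X → ℝ) (n : ℕ) : ∀ x, birkhoffSum T φ n x ≤ M T φ n x := by
  induction n with
  | zero => exact fun x => le_rfl
  | succ n ih => exact fun x => by
                  rw [birkhoffSum_succ']; exact le_max_of_le_right (by linarith [ih (T x)])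

omit [MeasurableSpace X] in
theorem M_eq (φ : X → ℝ) (n : ℕ) : ∀ x, ∃ k, M T φ n x = birkhoffSum T φ k x := by
  induction n with
  | zero => exact fun x => ⟨0, rfl⟩
  | succ n ih =>
    intro x
    obtain ⟨k, hk⟩ := ih (T x)
    rcases le_total 0 (φ x + M T φ n (T x)) with h | h
    · exact ⟨k + 1, by rw [birkhoffSum_succ', ← hk]; exact max_eq_right h⟩
    · exact ⟨0, max_eq_left h⟩

theorem meas_sum (hT : Measurable T) {φ : X → ℝ} (hφ : Measurable φ) (n : ℕ) :
    Measurable (birkhoffSum T φ n) :=
  Finset.measurable_sum _ fun k _ => hφ.comp (hT.iterate k)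

theorem meas_avg (hT : Measurable T) {φ : X → ℝ} (hφ : Measurable φ) (n : ℕ) :
    Measurable (birkhoffAverage ℝ T φ n) := (meas_sum hT hφ n).const_smul (n : ℝ)⁻¹

theorem int_avg (hT : MeasurePreserving T μ μ) {φ : X → ℝ} (hφ : Integrable φ μ) (n : ℕ) :
    Integrable (birkhoffAverage ℝ T φ n) μ :=
  (integrable_finsetSum _ fun k _ => (hT.iterate k).integrable_comp_of_integrable hφ).smul
    (n : ℝ)⁻¹

/-- maximal ergodic theorem -/
theorem maximal (hT : MeasurePreserving T μ μ) {φ : X → ℝ} (hm : Measurable φ)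
    (hφ : Integrable φ μ) : 0 ≤ ∫ x in {x | ∃ k, 0 < birkhoffSum T φ k x}, φ x ∂μ := by
  have m : ∀ n, Measurable (M T φ n) := fun n => by
    induction n with
    | zero => exact measurable_const
    | succ n ih => exact measurable_const.max (hm.add (ih.comp hT.measurable))
  have i : ∀ n, Integrable (M T φ n) μ := fun n => by
    induction n with
    | zero => exact integrable_zero _ _ _
    | succ n ih => exact (integrable_zero _ _ _).sup (hφ.add (hT.integrable_comp_of_integrable ih))
  have e : {x | ∃ k, 0 < birkhoffSum T φ k x} = ⋃ n, {x | 0 < M T φ (n + 1) x} := by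
    ext x
    simp only [mem_ofPred_eq, mem_iUnion]
    constructor
    · rintro ⟨k, hk⟩; exact ⟨k, hk.trans_le ((le_M φ k x).trans (M_mono φ k x))⟩
    · rintro ⟨n, hn⟩; obtain ⟨k, hk⟩ := M_eq (T := T) φ (n + 1) x; exact ⟨k, hk ▸ hn⟩
  rw [e]
  have ms : ∀ n, MeasurableSet {x | 0 < M T φ (n + 1) x} := fun n =>
    measurableSet_lt measurable_const (m _)
  refine ge_of_tendsto' (tendsto_setIntegral_of_monotone ms (monotone_nat_of_le_succ fun n x hx =>
    lt_of_lt_of_le hx (M_mono φ _ x)) hφ.integrableOn) fun n => ?_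
  rw [← integral_indicator (ms n)]
  have iT : Integrable (fun x => M T φ n (T x)) μ := hT.integrable_comp_of_integrable (i n)
  have h1 : ∫ x, (M T φ (n + 1) x - M T φ n (T x)) ∂μ ≤
      ∫ x, indicator {x | 0 < M T φ (n + 1) x} φ x ∂μ := by
    refine integral_mono ((i _).sub iT) (hφ.indicator (ms n)) fun x => ?_
    by_cases hx : 0 < M T φ (n + 1) x
    · rw [indicator_of_mem (s := {x | 0 < M T φ (n + 1) x}) hx]
      have : M T φ (n + 1) x = φ x + M T φ n (T x) := max_eq_right ((lt_max_iff.1 hx).resolve_left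
        (lt_irrefl _)).le
      simp only [this]; linarith
    · rw [indicator_of_notMem (s := {x | 0 < M T φ (n + 1) x}) hx]
      have := M_nonneg (T := T) φ n (T x)
      simp only; linarith [not_lt.1 hx]
  refine le_trans ?_ h1
  rw [integral_sub (i _) iT]
  have h2 : ∫ x, M T φ n (T x) ∂μ = ∫ x, M T φ n x ∂μ := by
    rw [← integral_map hT.measurable.aemeasurable (m n).aestronglyMeasurable, hT.map_eq]
  rw [h2, sub_nonneg]
  exact integral_mono (i _) (i _) (M_mono φ n)

theorem upper [IsFiniteMeasure μ] (hT : MeasurePreserving T μ μ) {ψ : X → ℝ} (hm : Measurable ψ)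
    (hψ : Integrable ψ μ) (h0 : ∀ D, MeasurableSet D → T ⁻¹' D = D → ∫ x in D, ψ x ∂μ = 0)
    {ε : ℝ} (hε : 0 < ε) : ∀ᵐ x ∂μ, ∀ᶠ n in atTop, birkhoffAverage ℝ T ψ n x < 2 * ε := by
  set φ : X → ℝ := fun x => ψ x - ε with hφ
  have mφ : Measurable φ := hm.sub_const ε
  have iφ : Integrable φ μ := hψ.sub (integrable_const ε)
  set D : Set X := {x | ∀ C : ℕ, ∃ n, (C : ℝ) < birkhoffSum T φ n x} with hD
  have mD : MeasurableSet D := by
    rw [hD]; simp only [ofPred_forall, ofPred_exists]
    exact MeasurableSet.iInter fun C => MeasurableSet.iUnion fun n =>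
      measurableSet_lt measurable_const (meas_sum hT.measurable mφ n)
  have inv : ∀ x, T x ∈ D ↔ x ∈ D := by
    intro x
    obtain ⟨c, hc⟩ := exists_nat_ge |φ x|
    have := abs_le.1 hc
    constructor
    · intro h C
      obtain ⟨n, hn⟩ := h (C + c)
      exact ⟨n + 1, by rw [birkhoffSum_succ']; push_cast at hn; linarith⟩
    · intro h C
      obtain ⟨n, hn⟩ := h (C + c)
      rcases n with _ | n
      · rw [birkhoffSum_zero] at hn; exact absurd hn (not_lt.2 (Nat.cast_nonneg _))
      · exact ⟨n, by rw [birkhoffSum_succ'] at hn; push_cast at hn; linarith⟩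
  have it : ∀ k x, T^[k] x ∈ D ↔ x ∈ D := fun k => by
    induction k with
    | zero => exact fun x => Iff.rfl
    | succ k ih => exact fun x => by rw [Function.iterate_succ_apply, ih, inv]
  have h1 := maximal hT (mφ.indicator mD) (iφ.indicator mD)
  have e : {x | ∃ k, 0 < birkhoffSum T (D.indicator φ) k x} = D := by
    ext x
    by_cases hx : x ∈ D
    · have : ∀ k, birkhoffSum T (D.indicator φ) k x = birkhoffSum T φ k x := fun k =>
        Finset.sum_congr rfl fun j _ => indicator_of_mem ((it j x).2 hx) _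
      simp only [mem_ofPred_eq, this, hx, iff_true]
      simpa using hx 0
    · have : ∀ k, birkhoffSum T (D.indicator φ) k x = 0 := fun k =>
        Finset.sum_eq_zero fun j _ => indicator_of_notMem (fun h => hx ((it j x).1 h)) _
      simp [this, hx]
  rw [e, setIntegral_indicator mD, inter_self, hφ, integral_sub hψ.integrableOn
    (integrable_const ε), h0 D mD (Set.ext inv), setIntegral_const, smul_eq_mul] at h1
  have z : μ D = 0 := by
    have : μ.real D ≤ 0 := by nlinarith
    exact (measureReal_eq_zero_iff (measure_ne_top _ _)).1 (le_antisymm this measureReal_nonneg)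
  filter_upwards [measure_eq_zero_iff_ae_notMem.1 z] with x hx
  simp only [hD, mem_ofPred_eq, not_forall, not_exists, not_lt] at hx
  obtain ⟨C, hC⟩ := hx
  filter_upwards [tendsto_natCast_atTop_atTop.eventually_gt_atTop (C / ε)] with n hn
  have n0 : (0 : ℝ) < n := lt_of_le_of_lt (by positivity) hn
  have := hC n
  rw [div_lt_iff₀ hε] at hn
  simp only [birkhoffSum, hφ, Finset.sum_sub_distrib, Finset.sum_const, Finset.card_range,
    nsmul_eq_mul] at this
  rw [birkhoffAverage, smul_eq_mul, inv_mul_lt_iff₀ n0, birkhoffSum]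
  linarith

/-- Birkhoff pointwise ergodic theorem -/
theorem birkhoff [IsFiniteMeasure μ] (hT : MeasurePreserving T μ μ) {f : X → ℝ}
    (hf : Integrable f μ) : ∀ᵐ x ∂μ, Tendsto (fun n => birkhoffAverage ℝ T f n x) atTop
      (𝓝 (μ[f | invariants T] x)) := by
  have hs : Measurable[invariants T] (μ[f | invariants T]) := stronglyMeasurable_condExp.measurable
  set g := μ[f | invariants T] with hg
  have gT : g ∘ T = g := comp_eq_of_measurable_invariants hs
  have mg : Measurable g := hs.mono (invariants_le T) le_rfl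
  have ef := hf.1.ae_eq_mk
  set f' := hf.1.mk f
  have mf : Measurable f' := hf.1.measurable_mk
  have i1 : Integrable (f' - g) μ := (hf.congr ef).sub integrable_condExp
  have h0 : ∀ D, MeasurableSet D → T ⁻¹' D = D → ∫ x in D, (f' - g) x ∂μ = 0 := by
    intro D m1 m2
    simp only [Pi.sub_apply]
    rw [integral_sub (hf.congr ef).integrableOn integrable_condExp.integrableOn,
      setIntegral_condExp (invariants_le T) hf ⟨m1, m2⟩,
      integral_congr_ae (ae_restrict_of_ae ef), sub_self]
  have u1 := ae_all_iff.2 fun m : ℕ => upper hT (mf.sub mg) i1 h0 (Nat.one_div_pos_of_nat (n := m))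
  have u2 := ae_all_iff.2 fun m : ℕ => upper hT (mf.sub mg).neg i1.neg (fun D m1 m2 => by
    rw [integral_neg', h0 D m1 m2, neg_zero]) (Nat.one_div_pos_of_nat (n := m))
  filter_upwards [u1, u2, ae_all_iff.2 fun n =>
    hT.quasiMeasurePreserving.birkhoffAverage_ae_eq_of_ae_eq ℝ ef n] with x a b c
  simp only [c]
  rw [Metric.tendsto_nhds]
  intro ε hε
  obtain ⟨m, hm⟩ := exists_nat_one_div_lt (half_pos hε)
  filter_upwards [a m, b m, eventually_ne_atTop 0] with n a b n0
  change birkhoffAverage ℝ T (f' - g) n x < _ at a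
  change birkhoffAverage ℝ T (-(f' - g)) n x < _ at b
  rw [birkhoffAverage_neg, Pi.neg_apply, Pi.neg_apply] at b
  rw [birkhoffAverage_sub, Pi.sub_apply, Pi.sub_apply,
    birkhoffAverage_of_comp_eq ℝ gT (Nat.cast_ne_zero.2 n0)] at a b
  rw [Real.dist_eq, abs_lt]
  constructor <;> linarith

/-- weak type maximal inequality -/
theorem weak [IsFiniteMeasure μ] (hT : MeasurePreserving T μ μ) {f : X → ℝ} (hm : Measurable f)
    (hf : Integrable f μ) {t : ℝ} (ht : 0 ≤ t) :
    t * μ.real {x | ∃ k, t < birkhoffAverage ℝ T f k x} ≤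
      ∫ x in {x | ∃ k, t < birkhoffAverage ℝ T f k x}, f x ∂μ := by
  have h := maximal hT (hm.sub_const t) (hf.sub (integrable_const t))
  have e : {x | ∃ k, 0 < birkhoffSum T (fun x => f x - t) k x} =
      {x | ∃ k, t < birkhoffAverage ℝ T f k x} := by
    ext x
    refine exists_congr fun k => ?_
    rcases k with _ | k
    · simp [birkhoffSum_zero, birkhoffAverage_zero, ht]
    · rw [birkhoffAverage, smul_eq_mul, lt_inv_mul_iff₀ (by positivity)]
      simp only [birkhoffSum, Finset.sum_sub_distrib, Finset.sum_const, Finset.card_range,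
        nsmul_eq_mul, sub_pos]
  rw [e, integral_sub hf.integrableOn (integrable_const t), setIntegral_const, smul_eq_mul] at h
  linarith

end Pool.Agent.Lib.helper9.Birkhoff
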