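import Mathlib

set_option autoImplicit false

namespace Pool.Agent.Lib.helper9.Chordal

open SimpleGraph

variable {V : Type*}

/-- restriction of a graph to the edges inside a set -/
def res (G : SimpleGraph V) (A : Set V) : SimpleGraph V where
  Adj a b := G.Adj a b ∧ a ∈ A ∧ b ∈ A
  symm := ⟨fun _ _ h => ⟨h.1.symm, h.2.2, h.2.1⟩⟩
  loopless := ⟨fun _ h => h.1.ne rfl⟩

theorem res_mono (G : SimpleGraph V) {A B : Set V} (h : A ⊆ B) : res G A ≤ res G B :=
  fun _ _ e => ⟨e.1, h e.2.1, h e.2.2⟩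

theorem cyc_adj {d : ℕ} (hd : 2 ≤ d) (u v : Fin (d + 2)) : (cycleGraph (d + 2)).Adj u v ↔
    (u.val + 1 = v.val ∨ v.val + 1 = u.val ∨ (u.val = 0 ∧ v.val = d + 1) ∨
      (v.val = 0 ∧ u.val = d + 1)) := by
  rw [cycleGraph_adj']
  have hu := u.2
  have hv := v.2
  rcases lt_trichotomy u v with h | h | h
  · have h1 : (u - v).val = d + 2 + u.val - v.val := Fin.coe_sub_iff_lt.2 h
    have h2 : (v - u).val = v.val - u.val := Fin.sub_val_of_le h.le
    have h3 : u.val < v.val := h
    omega
  · subst h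
    simp only [sub_self, Fin.val_zero]
    omega
  · have h1 : (v - u).val = d + 2 + v.val - u.val := Fin.coe_sub_iff_lt.2 h
    have h2 : (u - v).val = u.val - v.val := Fin.sub_val_of_le h.le
    have h3 : v.val < u.val := h
    omega

theorem hole (G : SimpleGraph V) (C : Set V) (s t r : V) (hst : s ≠ t) (hn : ¬ G.Adj s t)
    (hsr : G.Adj s r) (htr : G.Adj t r) (hrC : r ∉ C) (hr : ∀ c ∈ C, ¬ G.Adj c r)
    (hR : (res G (insert s (insert t C))).Reachable s t) :
    ∃ n, 4 ≤ n ∧ Nonempty (cycleGraph n ↪g G) := by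
  set A : Set V := insert s (insert t C) with hA
  obtain ⟨p, hp⟩ := hR.exists_walk_length_eq_dist
  set d := p.length with hd
  have hmem : ∀ i, i ≤ d → p.getVert i ∈ A := by
    intro i hi
    rcases Nat.eq_zero_or_pos i with rfl | h0
    · simp [hA]
    · obtain ⟨j, rfl⟩ : ∃ j, i = j + 1 := ⟨i - 1, by omega⟩
      exact (p.adj_getVert_succ (by omega : j < p.length)).2.2
  have hinj : ∀ i j, i < j → j ≤ d → p.getVert i ≠ p.getVert j := by
    intro i j hij hj e
    have := dist_le ((p.take i).append ((p.drop j).copy e.symm rfl))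
    rw [Walk.length_append, Walk.length_copy, Walk.take_length, Walk.drop_length, ← hp] at this
    have h2 : i ⊓ p.length ≤ i := inf_le_left
    omega
  have hadj : ∀ i j, i < j → j ≤ d → G.Adj (p.getVert i) (p.getVert j) → i + 1 = j := by
    intro i j hij hj e
    have e' : (res G A).Adj (p.getVert i) (p.getVert j) := ⟨e, hmem i (by omega), hmem j hj⟩
    have := dist_le ((p.take i).append (Walk.cons e' (p.drop j)))
    rw [Walk.length_append, Walk.length_cons, Walk.take_length, Walk.drop_length, ← hp] at this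
    have h2 : i ⊓ p.length ≤ i := inf_le_left
    omega
  have h0 : p.getVert 0 = s := p.getVert_zero
  have hl : p.getVert d = t := p.getVert_length
  have hd2 : 2 ≤ d := by
    by_contra h
    rcases (by omega : d = 0 ∨ d = 1) with h | h
    · rw [h, h0] at hl; exact hst hl
    · have := (p.adj_getVert_succ (by omega : 0 < p.length)).1
      rw [h0, zero_add, ← h, hl] at this
      exact hn this
  have hC : ∀ i, 0 < i → i < d → p.getVert i ∈ C := by
    intro i h1 h2
    have := hmem i h2.le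
    simp only [hA, Set.mem_insert_iff] at this
    rcases this with h | h | h
    · exact absurd (h0.trans h.symm) (hinj 0 i h1 h2.le)
    · exact absurd (h.trans hl.symm) (hinj i d h2 le_rfl)
    · exact h
  have hne : ∀ i, i ≤ d → p.getVert i ≠ r := by
    intro i hi e
    rcases (by omega : i = 0 ∨ i = d ∨ (0 < i ∧ i < d)) with h | h | h
    · rw [h, h0] at e; exact hsr.ne e
    · rw [h, hl] at e; exact htr.ne e
    · exact hrC (e ▸ hC i h.1 h.2)
  have har : ∀ i, i ≤ d → (G.Adj (p.getVert i) r ↔ (i = 0 ∨ i = d)) := by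
    intro i hi
    constructor
    · intro e
      by_contra h
      exact hr _ (hC i (by omega) (by omega)) e
    · rintro (h | h)
      · rw [h, h0]; exact hsr
      · rw [h, hl]; exact htr
  have hpp : ∀ i j, i ≤ d → j ≤ d →
      (G.Adj (p.getVert i) (p.getVert j) ↔ (i + 1 = j ∨ j + 1 = i)) := by
    intro i j hi hj
    constructor
    · intro e
      rcases lt_trichotomy i j with h | h | h
      · exact Or.inl (hadj i j h hj e)
      · subst h; exact absurd rfl e.ne
      · exact Or.inr (hadj j i h hi e.symm)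
    · rintro (h | h)
      · subst h; exact (p.adj_getVert_succ (by omega : i < p.length)).1
      · subst h; exact (p.adj_getVert_succ (by omega : j < p.length)).1.symm
  refine ⟨d + 2, by omega, ⟨⟨⟨fun i => if i.val ≤ d then p.getVert i.val else r, ?_⟩, ?_⟩⟩⟩
  · intro i j e
    have hi := i.2
    have hj := j.2
    apply Fin.ext
    by_cases h1 : i.val ≤ d <;> by_cases h2 : j.val ≤ d <;> simp only [h1, h2, if_true, if_false] at e
    · rcases lt_trichotomy i.val j.val with h | h | h
      · exact absurd e (hinj _ _ h h2)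
      · exact h
      · exact absurd e.symm (hinj _ _ h h1)
    · exact absurd e (hne _ h1)
    · exact absurd e.symm (hne _ h2)
    · omega
  · intro i j
    have hi := i.2
    have hj := j.2
    rw [cyc_adj hd2]
    simp only [Function.Embedding.coeFn_mk]
    by_cases h1 : i.val ≤ d <;> by_cases h2 : j.val ≤ d <;> simp only [h1, h2, if_true, if_false]
    · rw [hpp _ _ h1 h2]; omega
    · rw [har _ h1]; omega
    · rw [G.adj_comm, har _ h2]; omega
    · simp only [SimpleGraph.irrefl, false_iff]; omega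

/-- Dirac: a simplicial vertex in every nonempty finite vertex set -/
theorem simplicial (G : SimpleGraph V) (hG : ∀ n, 4 ≤ n → IsEmpty (cycleGraph n ↪g G))
    (U : Finset V) (hU : U.Nonempty) :
    ∃ x ∈ U, ∀ a ∈ U, ∀ b ∈ U, G.Adj x a → G.Adj x b → a ≠ b → G.Adj a b := by
  classical
  induction U using Finset.strongInduction with
  | H U ih =>
  by_cases hc : ∀ a ∈ U, ∀ b ∈ U, a ≠ b → G.Adj a b
  · obtain ⟨x, hx⟩ := hU
    exact ⟨x, hx, fun a ha b hb _ _ h => hc a ha b hb h⟩
  push Not at hc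
  obtain ⟨u, hu, v, hv, huv, hn⟩ := hc
  let P : Finset V → Prop := fun C => C ⊆ U ∧ u ∈ C ∧ (∀ a ∈ C, (res G C).Reachable u a) ∧
    ∃ r ∈ U, r ∉ C ∧ ∀ c ∈ C, ¬ G.Adj c r
  have hP : (U.powerset.filter P).Nonempty := by
    refine ⟨{u}, ?_⟩
    simp only [Finset.mem_filter, Finset.mem_powerset, P, Finset.singleton_subset_iff, hu,
      Finset.mem_singleton, true_and, forall_eq]
    exact ⟨Reachable.refl _, v, hv, huv.symm, hn⟩
  obtain ⟨C, hC, hmax⟩ := Finset.exists_max_image _ Finset.card hP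
  obtain ⟨hCU, huC, hcon, r0, hr0U, hr0C, hr0⟩ := (Finset.mem_filter.1 hC).2
  let R : Finset V := U.filter fun r => r ∉ C ∧ ∀ c ∈ C, ¬ G.Adj c r
  have hRU : R ⊂ U := by
    refine Finset.ssubset_iff_subset_ne.2 ⟨Finset.filter_subset _ _, fun e => ?_⟩
    have : u ∈ R := e ▸ hu
    exact (Finset.mem_filter.1 this).2.1 huC
  have reach : ∀ (s : V) (B : Set V), (↑C : Set V) ⊆ B → s ∈ B → (∃ c ∈ C, G.Adj c s) →
      (res G B).Reachable u s := by
    rintro s B hB hs ⟨c, hc, e⟩
    have e' : (res G B).Adj c s := ⟨e, hB hc, hs⟩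
    exact ((hcon c hc).mono (res_mono G hB)).trans e'.reachable
  have hS : ∀ s ∈ U, s ∉ C → (∃ c ∈ C, G.Adj c s) → ∀ r ∈ R, G.Adj s r := by
    intro s hs hsC hcs r hr
    obtain ⟨hrU, hrC, hrn⟩ := Finset.mem_filter.1 hr
    by_contra hsr
    have hin : insert s C ∈ U.powerset.filter P := by
      have h1 : insert s C ⊆ U := Finset.insert_subset hs hCU
      refine Finset.mem_filter.2 ⟨Finset.mem_powerset.2 h1, h1, Finset.mem_insert_of_mem huC,
        ?_, r, hrU, ?_, ?_⟩
      · intro a ha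
        rcases Finset.mem_insert.1 ha with rfl | ha
        · exact reach _ _ (by simp) (by simp) hcs
        · exact (hcon a ha).mono (res_mono G (by simp))
      · intro h
        rcases Finset.mem_insert.1 h with rfl | h
        · obtain ⟨c, hc, e⟩ := hcs
          exact hrn c hc e
        · exact hrC h
      · intro c hc
        rcases Finset.mem_insert.1 hc with rfl | hc
        · exact hsr
        · exact hrn c hc
    have := hmax _ hin
    rw [Finset.card_insert_of_notMem hsC] at this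
    omega
  have hr0R : r0 ∈ R := Finset.mem_filter.2 ⟨hr0U, hr0C, hr0⟩
  obtain ⟨x, hx, hsimp⟩ := ih R hRU ⟨r0, hr0R⟩
  obtain ⟨hxU, hxC, hxn⟩ := Finset.mem_filter.1 hx
  refine ⟨x, hxU, fun a ha b hb xa xb hab => ?_⟩
  have haC : a ∉ C := fun h => hxn a h xa.symm
  have hbC : b ∉ C := fun h => hxn b h xb.symm
  by_cases h1 : ∃ c ∈ C, G.Adj c a <;> by_cases h2 : ∃ c ∈ C, G.Adj c b
  · by_contra hnab
    have hB : (↑C : Set V) ⊆ insert a (insert b ↑C) := fun y hy => Or.inr (Or.inr hy)
    obtain ⟨n, hn4, ⟨e⟩⟩ := hole G C a b x hab hnab xa.symm xb.symm hxC hxn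
      ((reach a _ hB (by simp) h1).symm.trans (reach b _ hB (by simp) h2))
    exact (hG n hn4).false e
  · push Not at h2
    exact hS a ha haC h1 b (Finset.mem_filter.2 ⟨hb, hbC, h2⟩)
  · push Not at h1
    exact (hS b hb hbC h2 a (Finset.mem_filter.2 ⟨ha, haC, h1⟩)).symm
  · push Not at h1 h2
    exact hsimp a (Finset.mem_filter.2 ⟨ha, haC, h1⟩) b (Finset.mem_filter.2 ⟨hb, hbC, h2⟩)
      xa xb hab

/-- perfect elimination ordering -/
theorem peo_on (G : SimpleGraph V) (hG : ∀ n, 4 ≤ n → IsEmpty (cycleGraph n ↪g G))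
    (U : Finset V) : ∃ ρ : V → ℕ, (∀ a ∈ U, ∀ b ∈ U, ρ a = ρ b → a = b) ∧
      ∀ x ∈ U, ∀ a ∈ U, ∀ b ∈ U, G.Adj x a → G.Adj x b → ρ x < ρ a → ρ x < ρ b → a ≠ b →
        G.Adj a b := by
  classical
  induction U using Finset.strongInduction with
  | H U ih =>
  rcases U.eq_empty_or_nonempty with rfl | hU
  · exact ⟨fun _ => 0, by simp, by simp⟩
  obtain ⟨x, hx, hs⟩ := simplicial G hG U hU
  obtain ⟨ρ, h1, h2⟩ := ih (U.erase x) (Finset.erase_ssubset hx)
  refine ⟨fun y => if y = x then 0 else ρ y + 1, ?_, ?_⟩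
  · intro a ha b hb e
    by_cases p : a = x <;> by_cases q : b = x <;> simp only [p, q, if_true, if_false] at e
    · rw [p, q]
    · omega
    · omega
    · exact h1 a (Finset.mem_erase.2 ⟨p, ha⟩) b (Finset.mem_erase.2 ⟨q, hb⟩) (by omega)
  · intro y hy a ha b hb ya yb l1 l2 hab
    by_cases o : y = x
    · subst o; exact hs a ha b hb ya yb hab
    by_cases p : a = x
    · simp [p] at l1
    by_cases q : b = x
    · simp [q] at l2
    simp only [o, p, q, if_false] at l1 l2
    exact h2 y (Finset.mem_erase.2 ⟨o, hy⟩) a (Finset.mem_erase.2 ⟨p, ha⟩) b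
      (Finset.mem_erase.2 ⟨q, hb⟩) ya yb (by omega) (by omega) hab

theorem peo [Fintype V] (G : SimpleGraph V) (hG : ∀ n, 4 ≤ n → IsEmpty (cycleGraph n ↪g G)) :
    ∃ ρ : V → ℕ, Function.Injective ρ ∧
      ∀ x a b, G.Adj x a → G.Adj x b → ρ x < ρ a → ρ x < ρ b → a ≠ b → G.Adj a b := by
  obtain ⟨ρ, h1, h2⟩ := peo_on G hG Finset.univ
  exact ⟨ρ, fun a b e => h1 a (by simp) b (by simp) e,
    fun x a b => h2 x (by simp) a (by simp) b (by simp)⟩

end Pool.Agent.Lib.helper9.Chordal
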