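import Mathlib

open Set Filter Metric Complex Topology ComplexConjugate

namespace Pool.Agent.Lib.helper9.RMT

theorem hurwitz {ι : Type*} {l : Filter ι} [l.NeBot] {U : Set ℂ} (hU : IsOpen U)
    (hc : IsPreconnected U) {g : ι → ℂ → ℂ} {ψ : ℂ → ℂ}
    (hg : ∀ k, DifferentiableOn ℂ (g k) U) (h0 : ∀ k, ∀ z ∈ U, g k z ≠ 0)
    (hl : TendstoLocallyUniformlyOn g ψ l U) {z₀ : ℂ} (hz₀ : z₀ ∈ U) (hψ : ψ z₀ = 0) :
    EqOn ψ 0 U := by
  have hd : DifferentiableOn ℂ ψ U := hl.differentiableOn (Eventually.of_forall hg) hU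
  have han : AnalyticOnNhd ℂ ψ U := hd.analyticOnNhd hU
  rcases (han z₀ hz₀).eventually_eq_zero_or_eventually_ne_zero with h | h
  · exact han.eqOn_zero_of_preconnected_of_eventuallyEq_zero hc hz₀ h
  exfalso
  rw [eventually_nhdsWithin_iff] at h
  obtain ⟨r, hr, hball⟩ := Metric.nhds_basis_closedBall.mem_iff.1 (h.and (hU.mem_nhds hz₀))
  have hsub : Metric.closedBall z₀ r ⊆ U := fun z hz => (hball hz).2
  obtain ⟨w, hw, hmin⟩ := (isCompact_sphere z₀ r).exists_isMinOn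
    (NormedSpace.sphere_nonempty.2 hr.le)
    ((hd.continuousOn.mono (Metric.sphere_subset_closedBall.trans hsub)).norm)
  have hm : 0 < ‖ψ w‖ := norm_pos_iff.2 ((hball (Metric.sphere_subset_closedBall hw)).1 (by
    intro h'
    rw [mem_singleton_iff.1 h', Metric.mem_sphere, dist_self] at hw
    exact hr.ne hw))
  have hu := (tendstoLocallyUniformlyOn_iff_forall_isCompact hU).1 hl _ hsub
    (isCompact_closedBall z₀ r)
  obtain ⟨k, hk⟩ := (Metric.tendstoUniformlyOn_iff.1 hu (‖ψ w‖ / 2) (by positivity)).exists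
  have hdi : DifferentiableOn ℂ (fun z => (g k z)⁻¹) (closure (Metric.ball z₀ r)) := by
    rw [closure_ball _ hr.ne']
    exact ((hg k).mono hsub).inv fun z hz => h0 k z (hsub hz)
  have h1 := Complex.norm_le_of_forall_mem_frontier_norm_le Metric.isBounded_ball
    hdi.diffContOnCl (C := (‖ψ w‖ / 2)⁻¹) (fun z hz => by
      rw [frontier_ball _ hr.ne'] at hz
      have a1 := hk z (Metric.sphere_subset_closedBall hz)
      have a2 : ‖ψ w‖ ≤ ‖ψ z‖ := hmin hz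
      rw [dist_eq_norm] at a1
      have a3 := norm_sub_norm_le (ψ z) (g k z)
      rw [norm_inv]
      exact inv_anti₀ (by positivity) (by linarith))
    (subset_closure (Metric.mem_ball_self hr))
  have a1 := hk z₀ (Metric.mem_closedBall_self hr.le)
  rw [hψ, dist_zero_left] at a1
  rw [norm_inv] at h1
  have := inv_strictAnti₀ (norm_pos_iff.2 (h0 k z₀ hz₀)) a1
  linarith

theorem montel {ι : Type*} (l : Ultrafilter ι) {U : Set ℂ} (hU : IsOpen U) {g : ι → ℂ → ℂ} {M : ℝ}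
    (hg : ∀ k, DifferentiableOn ℂ (g k) U) (hb : ∀ k, ∀ z ∈ U, ‖g k z‖ ≤ M) :
    ∃ ψ, TendstoLocallyUniformlyOn g ψ l U := by
  have h1 : ∀ z, ∃ a, z ∈ U → Tendsto (fun k => g k z) l (𝓝 a) := by
    intro z
    by_cases hz : z ∈ U
    · obtain ⟨a, -, ha⟩ := (isCompact_closedBall (0 : ℂ) M).ultrafilter_le_nhds
        (l.map fun k => g k z) (by
          rw [le_principal_iff]
          exact mem_map.2 (Eventually.of_forall fun k => by simpa using hb k z hz))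
      exact ⟨a, fun _ => ha⟩
    · exact ⟨0, fun h => absurd h hz⟩
  choose ψ hψ using h1
  refine ⟨ψ, Metric.tendstoLocallyUniformlyOn_iff.2 fun ε hε x hx => ?_⟩
  obtain ⟨r, hr, hs⟩ := Metric.isOpen_iff.1 hU x hx
  obtain ⟨k0⟩ := l.neBot.nonempty
  have M0 : 0 ≤ M := (norm_nonneg _).trans (hb k0 x hx)
  have key : ∀ k, ∀ y ∈ ball x r, dist (g k y) (g k x) ≤ 2 * M / r * dist y x := fun k y hy =>
    dist_le_div_mul_dist_of_mapsTo_ball ((hg k).mono hs) (fun w hw => by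
      rw [mem_closedBall, dist_eq_norm]
      linarith [norm_sub_le (g k w) (g k x), hb k w (hs hw), hb k x hx]) hy
  have hc : Tendsto (fun y => 2 * M / r * dist y x) (𝓝 x) (𝓝 0) := by
    have : Continuous (fun y => 2 * M / r * dist y x) := by fun_prop
    simpa using this.tendsto x
  refine ⟨_, mem_nhdsWithin_of_mem_nhds (inter_mem (ball_mem_nhds x hr)
    (hc.eventually (gt_mem_nhds (show 0 < ε / 3 by positivity)))), ?_⟩
  filter_upwards [Metric.tendsto_nhds.1 (hψ x hx) (ε / 3) (by positivity)] with k hk y hy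
  have a1 : dist (ψ y) (ψ x) ≤ 2 * M / r * dist y x :=
    le_of_tendsto' ((hψ y (hs hy.1)).dist (hψ x hx)) (fun k => key k y hy.1)
  have a2 := key k y hy.1
  have a3 : 2 * M / r * dist y x < ε / 3 := hy.2
  linarith [dist_triangle4 (ψ y) (ψ x) (g k x) (g k y), dist_comm (ψ x) (g k x),
    dist_comm (g k x) (g k y)]

noncomputable def mob (a z : ℂ) : ℂ := (z - a) / (1 - conj a * z)

lemma mob_den {a z : ℂ} (ha : ‖a‖ < 1) (hz : ‖z‖ ≤ 1) : 1 - conj a * z ≠ 0 := by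
  intro h
  have h1 : ‖conj a * z‖ = 1 := by rw [← sub_eq_zero.1 h, norm_one]
  rw [norm_mul, RCLike.norm_conj] at h1
  nlinarith [norm_nonneg a, norm_nonneg z]

lemma mob_key (a z : ℂ) : ‖1 - conj a * z‖ ^ 2 - ‖z - a‖ ^ 2 = (1 - ‖a‖ ^ 2) * (1 - ‖z‖ ^ 2) := by
  simp only [Complex.sq_norm, normSq_apply, sub_re, sub_im, mul_re, mul_im, conj_re, conj_im,
    one_re, one_im]
  ring

lemma mob_lt {a z : ℂ} (ha : ‖a‖ < 1) (hz : ‖z‖ < 1) : ‖mob a z‖ < 1 := by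
  rw [mob, norm_div, div_lt_one (norm_pos_iff.2 (mob_den ha hz.le))]
  refine lt_of_pow_lt_pow_left₀ 2 (norm_nonneg _) ?_
  have h1 : 0 < 1 - ‖a‖ ^ 2 := by nlinarith [norm_nonneg a]
  have h2 : 0 < 1 - ‖z‖ ^ 2 := by nlinarith [norm_nonneg z]
  linarith [mob_key a z, mul_pos h1 h2]

lemma mob_mob {a z : ℂ} (ha : ‖a‖ < 1) (hz : ‖z‖ ≤ 1) : mob (-a) (mob a z) = z := by
  have h1 := mob_den ha hz
  have h2 := mob_den ha ha.le
  have h3 : 1 - conj (-a) * mob a z = (1 - conj a * a) / (1 - conj a * z) := by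
    simp only [mob, map_neg]; field_simp; ring
  have h4 : mob a z - -a = z * (1 - conj a * a) / (1 - conj a * z) := by
    rw [mob, sub_neg_eq_add, div_add' _ _ _ h1]; congr 1; ring
  rw [mob, h3, h4, div_div_div_cancel_right₀ h1, mul_div_cancel_right₀ _ h2]

lemma mob_self (a : ℂ) : mob a a = 0 := by simp [mob]

lemma mob_deriv {a z : ℂ} (ha : ‖a‖ < 1) (hz : ‖z‖ ≤ 1) :
    HasDerivAt (mob a) ((1 - conj a * a) / (1 - conj a * z) ^ 2) z := by
  have := ((hasDerivAt_id' z).sub_const a).fun_div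
    (((hasDerivAt_id' z).const_mul (conj a)).const_sub 1) (mob_den ha hz)
  exact this.congr_deriv (by ring)

lemma mob_deriv_ne {a z : ℂ} (ha : ‖a‖ < 1) (hz : ‖z‖ ≤ 1) :
    (1 - conj a * a) / (1 - conj a * z) ^ 2 ≠ 0 :=
  div_ne_zero (mob_den ha ha.le) (pow_ne_zero _ (mob_den ha hz))

lemma mob_inj {a z w : ℂ} (ha : ‖a‖ < 1) (hz : ‖z‖ ≤ 1) (hw : ‖w‖ ≤ 1) (h : mob a z = mob a w) :
    z = w := by rw [← mob_mob ha hz, h, mob_mob ha hw]

structure Adm (U : Set ℂ) (p : ℂ) (ψ : ℂ → ℂ) : Prop where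
  d : DifferentiableOn ℂ ψ U
  m : ∀ z ∈ U, ‖ψ z‖ < 1
  i : InjOn ψ U
  n : ∀ z ∈ U, deriv ψ z ≠ 0
  z : ψ p = 0

lemma adm_mob {U : Set ℂ} {p : ℂ} (hp : p ∈ U) {g : ℂ → ℂ}
    (hm : ∀ z ∈ U, ‖g z‖ < 1) (hi : InjOn g U) (hn : ∀ z ∈ U, deriv g z ≠ 0) :
    Adm U p (mob (g p) ∘ g) := by
  have hd : ∀ z ∈ U, HasDerivAt (mob (g p) ∘ g) _ z := fun z hz =>
    (mob_deriv (hm p hp) (hm z hz).le).comp z
      (differentiableAt_of_deriv_ne_zero (hn z hz)).hasDerivAt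
  refine ⟨fun z hz => (hd z hz).differentiableAt.differentiableWithinAt,
    fun z hz => mob_lt (hm p hp) (hm z hz),
    fun z hz w hw h => hi hz hw (mob_inj (hm p hp) (hm z hz).le (hm w hw).le h), fun z hz => ?_,
    mob_self _⟩
  rw [(hd z hz).deriv]
  exact mul_ne_zero (mob_deriv_ne (hm p hp) (hm z hz).le) (hn z hz)

lemma koebe {U : Set ℂ} (hU : IsOpen U) (hs : IsSimplyConnected U) {p q : ℂ} (hp : p ∈ U)
    (hq : q ∈ U) (hpq : q ≠ p) {ψ : ℂ → ℂ} (h : Adm U p ψ) {a : ℂ} (ha : ‖a‖ < 1)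
    (hna : a ∉ ψ '' U) : ∃ χ, Adm U p χ ∧ ‖ψ q‖ < ‖χ q‖ := by
  have hd : ∀ z ∈ U, HasDerivAt (fun z => mob a (ψ z)) _ z := fun z hz =>
    (mob_deriv ha (h.m z hz).le).comp z (h.d.differentiableAt (hU.mem_nhds hz)).hasDerivAt
  have hne : ∀ z ∈ U, mob a (ψ z) ≠ 0 := fun z hz e =>
    hna ⟨z, hz, mob_inj ha (h.m z hz).le ha.le (e.trans (mob_self a).symm)⟩
  obtain ⟨g, hgc, hg⟩ := exists_continuousOn_pow_eq hs hU (g := fun z => mob a (ψ z))
    (fun z hz => (hd z hz).continuousAt.continuousWithinAt)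
    (fun ⟨z, hz, e⟩ => hne z hz e) two_ne_zero
  have g0 : ∀ z ∈ U, g z ≠ 0 := fun z hz e => hne z hz (by rw [← hg z, e]; simp)
  have gm : ∀ z ∈ U, ‖g z‖ < 1 := fun z hz => by
    refine lt_of_pow_lt_pow_left₀ 2 zero_le_one ?_
    rw [← norm_pow, hg, one_pow]; exact mob_lt ha (h.m z hz)
  have gi : InjOn g U := fun z hz w hw e => h.i hz hw
    (mob_inj ha (h.m z hz).le (h.m w hw).le (by rw [← hg z, ← hg w, e]))
  have gn : ∀ z ∈ U, deriv g z ≠ 0 := by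
    intro z hz
    have h0 : ((2 : ℕ) : ℂ) * g z ^ (2 - 1) ≠ 0 := by simpa using g0 z hz
    rw [(HasDerivAt.of_comp_left (hgc.continuousAt (hU.mem_nhds hz)) (hasDerivAt_pow 2 (g z))
      (hd z hz) h0 (Eventually.of_forall hg)).deriv]
    exact div_ne_zero (mul_ne_zero (mob_deriv_ne ha (h.m z hz).le) (h.n z hz)) h0
  have hb := gm p hp
  refine ⟨_, adm_mob hp gm gi gn, ?_⟩
  set b := g p with hbdef
  set F : ℂ → ℂ := fun w => mob (-a) (mob (-b) w ^ 2) with hF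
  have na : ‖-a‖ < 1 := by rwa [norm_neg]
  have nb : ‖-b‖ < 1 := by rwa [norm_neg]
  have sq : ∀ w : ℂ, ‖w‖ < 1 → ‖w ^ 2‖ < 1 := fun w hw => by
    rw [norm_pow]; exact pow_lt_one₀ (norm_nonneg _) hw two_ne_zero
  have FG : ∀ x : ℂ, ‖x‖ < 1 → F (mob b x) = mob (-a) (x ^ 2) := fun x hx => by
    simp only [hF, mob_mob hb hx.le]
  have e1 : ∀ z ∈ U, F (mob b (g z)) = ψ z := fun z hz => by
    rw [FG _ (gm z hz), hg, mob_mob ha (h.m z hz).le]
  have F0 : F 0 = 0 := by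
    have := e1 p hp
    rwa [mob_self, h.z] at this
  have Fd : DifferentiableOn ℂ F (ball 0 1) := fun w hw => by
    have hw' := mem_ball_zero_iff.1 hw
    exact ((mob_deriv na (sq _ (mob_lt nb hw')).le).differentiableAt.comp w
      ((mob_deriv nb hw'.le).differentiableAt.pow 2)).differentiableWithinAt
  have Fm : MapsTo F (ball 0 1) (closedBall (F 0) 1) := fun w hw => by
    rw [F0, mem_closedBall_zero_iff]
    exact (mob_lt na (sq _ (mob_lt nb (mem_ball_zero_iff.1 hw)))).le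
  have hw : mob b (g q) ∈ ball (0 : ℂ) 1 := mem_ball_zero_iff.2 (mob_lt hb (gm q hq))
  have w0 : mob b (g q) ≠ 0 := fun e =>
    hpq (gi hq hp (mob_inj hb (gm q hq).le hb.le (e.trans (mob_self b).symm)))
  show ‖ψ q‖ < ‖mob b (g q)‖
  rw [← e1 q hq]
  set w := mob b (g q)
  have h1 := norm_dslope_le_div_of_mapsTo_ball Fd Fm hw
  have h2 : ‖dslope F 0 w‖ ≠ 1 / 1 := by
    intro e
    have h3 := affine_of_mapsTo_ball_of_norm_dslope_eq_div Fd Fm hw e
    have n1 : ‖(1 / 2 : ℂ)‖ < 1 := by norm_num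
    have n2 : ‖(-(1 / 2) : ℂ)‖ < 1 := by norm_num
    have h4 := h3 (mem_ball_zero_iff.2 (mob_lt hb n1))
    have h5 := h3 (mem_ball_zero_iff.2 (mob_lt hb n2))
    rw [FG _ n1] at h4
    rw [FG _ n2, neg_sq, h4] at h5
    simp only [add_right_inj, sub_zero, smul_eq_mul] at h5
    have h6 : dslope F 0 w ≠ 0 := by
      intro e'; rw [e'] at e; simp at e
    have := mob_inj hb n1.le n2.le (mul_right_cancel₀ h6 h5)
    norm_num at this
  have h3 := lt_of_le_of_ne h1 h2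
  rw [dslope_of_ne _ w0, slope_def_field, F0, sub_zero, sub_zero, norm_div,
    div_lt_div_iff₀ (norm_pos_iff.2 w0) one_pos] at h3
  linarith

theorem exists_adm_surj {U : Set ℂ} (hU : IsOpen U) (hs : IsSimplyConnected U) {p : ℂ}
    (hp : p ∈ U) {g : ℂ → ℂ} (hg : Adm U p g) : ∃ ψ, Adm U p ψ ∧ ball 0 1 ⊆ ψ '' U := by
  have hc := hs.isPathConnected.isConnected.isPreconnected
  obtain ⟨q, hq, hpq⟩ : ∃ q ∈ U, q ≠ p :=
    (eventually_nhdsWithin_iff.2 ((hU.eventually_mem hp).mono fun x hx hx' => ⟨hx, hx'⟩) :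
      ∀ᶠ q in 𝓝[≠] p, q ∈ U ∧ q ≠ p).exists
  set T : Set ℝ := {t | ∃ ψ, Adm U p ψ ∧ ‖ψ q‖ = t}
  have hT : BddAbove T := ⟨1, fun t ⟨ψ, h1, h2⟩ => h2 ▸ (h1.m q hq).le⟩
  obtain ⟨u, -, hu, hu'⟩ := exists_seq_tendsto_sSup (S := T) ⟨_, g, hg, rfl⟩ hT
  choose f hf hfq using hu'
  obtain ⟨ψ, hψ⟩ := montel (hyperfilter ℕ) hU (fun k => (hf k).d) (fun k z hz => ((hf k).m z hz).le)
  have hd : DifferentiableOn ℂ ψ U := hψ.differentiableOn (Eventually.of_forall fun k => (hf k).d) hU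
  have hq1 : ‖ψ q‖ = sSup T := by
    refine tendsto_nhds_unique (hψ.tendsto_at hq).norm ?_
    simp only [hfq]
    exact hu.mono_left Nat.hyperfilter_le_atTop
  have hp0 : ψ p = 0 := by
    refine tendsto_nhds_unique (hψ.tendsto_at hp) ?_
    simp only [(hf _).z]; exact tendsto_const_nhds
  have hq0 : ψ q ≠ ψ p := by
    rw [hp0, ← norm_pos_iff, hq1]
    refine lt_of_lt_of_le (norm_pos_iff.2 fun e => hpq ?_) (le_csSup hT ⟨g, hg, rfl⟩)
    exact hg.i hq hp (e.trans hg.z.symm)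
  have hle : ∀ z ∈ U, ‖ψ z‖ ≤ 1 := fun z hz =>
    le_of_tendsto' (hψ.tendsto_at hz).norm (fun k => ((hf k).m z hz).le)
  have hA : Adm U p ψ := by
    refine ⟨hd, fun z hz => lt_of_le_of_ne (hle z hz) fun e => ?_, fun z hz w hw e => ?_,
      fun z hz e => ?_, hp0⟩
    · have := norm_eqOn_of_isPreconnected_of_isMaxOn hc hU hd hz
        (fun w hw => by simpa [e] using hle w hw) hp
      simp [hp0, e] at this
    · by_contra hzw
      obtain ⟨r, hr, hb⟩ := Metric.isOpen_iff.1 (hU.inter isOpen_ne) z ⟨hz, hzw⟩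
      have h1 := hurwitz isOpen_ball (convex_ball z r).isPreconnected
        (g := fun k x => f k x - f k w) (ψ := fun x => ψ x - ψ w)
        (fun k => ((hf k).d.mono fun x hx => (hb hx).1).sub_const _)
        (fun k x hx e' => (hb hx).2 ((hf k).i (hb hx).1 hw (sub_eq_zero.1 e')))
        ((hψ.mono fun x hx => (hb hx).1).sub
          ((hψ.tendsto_at hw).tendstoUniformlyOn_const _).tendstoLocallyUniformlyOn)
        (mem_ball_self hr) (sub_eq_zero.2 e)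
      have h2 := ((hd.sub_const (ψ w)).analyticOnNhd hU).eqOn_zero_of_preconnected_of_eventuallyEq_zero
        hc hz (h1.eventuallyEq_of_mem (ball_mem_nhds z hr))
      exact hq0 ((sub_eq_zero.1 (h2 hq)).trans (sub_eq_zero.1 (h2 hp)).symm)
    · have h1 := hurwitz hU hc (fun k => (hf k).d.deriv hU) (fun k => (hf k).n)
        (hψ.deriv (Eventually.of_forall fun k => (hf k).d) hU) hz e
      exact hq0 (hU.is_const_of_deriv_eq_zero hc hd h1 hq hp)
  refine ⟨ψ, hA, fun a ha => ?_⟩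
  by_contra hna
  obtain ⟨χ, h1, h2⟩ := koebe hU hs hp hq hpq hA (mem_ball_zero_iff.1 ha) hna
  exact h2.not_ge (hq1 ▸ le_csSup hT ⟨χ, h1, rfl⟩)

/-- a conformal equivalence of `U` with the unit disc -/
structure Conf (U : Set ℂ) (p : ℂ) (ψ φ : ℂ → ℂ) : Prop where
  dψ : DifferentiableOn ℂ ψ U
  dφ : DifferentiableOn ℂ φ (ball 0 1)
  mψ : MapsTo ψ U (ball 0 1)
  mφ : MapsTo φ (ball 0 1) U
  l : ∀ z ∈ U, φ (ψ z) = z
  r : ∀ w ∈ ball (0 : ℂ) 1, ψ (φ w) = w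
  z : ψ p = 0

theorem rmt_of_adm {U : Set ℂ} (hU : IsOpen U) (hs : IsSimplyConnected U) {p : ℂ}
    (hp : p ∈ U) {g : ℂ → ℂ} (hg : Adm U p g) : ∃ ψ φ, Conf U p ψ φ := by
  obtain ⟨ψ, h, hsurj⟩ := exists_adm_surj hU hs hp hg
  have hl : ∀ z ∈ U, Function.invFunOn ψ U (ψ z) = z := fun z hz => h.i.leftInvOn_invFunOn hz
  refine ⟨ψ, Function.invFunOn ψ U, h.d, fun w hw => ?_, fun z hz => mem_ball_zero_iff.2 (h.m z hz),
    fun w hw => Function.invFunOn_mem (hsurj hw), hl, fun w hw => Function.invFunOn_eq (hsurj hw),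
    h.z⟩
  obtain ⟨z, hz, rfl⟩ := hsurj hw
  exact ((h.d.analyticAt (hU.mem_nhds hz)).hasStrictDerivAt.to_local_left_inverse (h.n z hz)
    ((hU.eventually_mem hz).mono hl)).hasDerivAt.differentiableAt.differentiableWithinAt

theorem rmt_bounded {U : Set ℂ} (hU : IsOpen U) (hs : IsSimplyConnected U)
    (hb : Bornology.IsBounded U) {p : ℂ} (hp : p ∈ U) : ∃ ψ φ, Conf U p ψ φ := by
  obtain ⟨R, hR, h⟩ := hb.subset_ball_lt 0 0
  have R0 : (R : ℂ) ≠ 0 := ofReal_ne_zero.2 hR.ne'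
  refine rmt_of_adm hU hs hp (adm_mob (g := fun z => z / R) hp (fun z hz => ?_)
    (fun z _ w _ e => (div_left_inj' R0).1 e) (fun z _ => by simp [R0]))
  rw [norm_div, norm_real, Real.norm_of_nonneg hR.le, div_lt_one hR]
  exact mem_ball_zero_iff.1 (h hz)

end Pool.Agent.Lib.helper9.RMT
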