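import Mathlib

set_option autoImplicit false

namespace Pool.Agent.Lib.helper9

open Finset

/-- a random subset containing each point with probability `p`, derandomised -/
theorem derand {ι κ : Type*} [DecidableEq ι] (I : Finset ι) (a : ι → ℝ) (b : κ → ℝ) (S : κ → Finset ι)
    {p : ℝ} (p0 : 0 ≤ p) (p1 : p ≤ 1) (T : Finset κ) :
    ∃ C ⊆ I, ∑ i ∈ C, a i + ∑ x ∈ T with Disjoint (S x) C, b x ≤
      p * ∑ i ∈ I, a i + ∑ x ∈ T, b x * (1 - p) ^ (S x ∩ I).card := by
  induction I using Finset.induction_on generalizing T with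
  | empty => exact ⟨∅, by simp⟩
  | insert i I hi ih =>
    obtain ⟨C, c1, c2⟩ := ih (T.filter fun x => i ∉ S x)
    obtain ⟨D, d1, d2⟩ := ih T
    have e : ∑ x ∈ T, b x * (1 - p) ^ (S x ∩ insert i I).card =
        p * ∑ x ∈ T with i ∉ S x, b x * (1 - p) ^ (S x ∩ I).card +
          (1 - p) * ∑ x ∈ T, b x * (1 - p) ^ (S x ∩ I).card := by
      rw [sum_filter, mul_sum, mul_sum, ← sum_add_distrib]
      refine sum_congr rfl fun x _ => ?_
      by_cases h : i ∈ S x
      · rw [inter_insert_of_mem h, card_insert_of_notMem (by simp [hi])]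
        simp [h]
        ring
      · rw [inter_insert_of_notMem h]
        simp [h]
        ring
    by_contra! h
    have h1 := h _ (insert_subset_insert i c1)
    have h2 := h _ (d1.trans (subset_insert _ _))
    rw [sum_insert hi, e] at h1 h2
    rw [sum_insert (mt (@c1 i) hi)] at h1
    simp only [disjoint_insert_right, filter_filter] at h1 c2
    rcases p1.eq_or_lt with rfl | p1
    · linarith
    nlinarith [mul_le_mul_of_nonneg_left h1.le p0, mul_le_mul_of_nonneg_left c2 p0,
      mul_lt_mul_of_pos_left (h2.trans_le d2) (sub_pos.2 p1)]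

end Pool.Agent.Lib.helper9
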