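import Mathlib

set_option autoImplicit false

namespace Pool.Agent.Lib.helper9.ConstWidth

open RealInnerProductSpace

/-- Pal / Meissner: a set of diameter at most one lies in a compact convex set of diameter at most
one which has a diametral chord in every direction. -/
theorem exists_complete {E : Type*} [NormedAddCommGroup E] [InnerProductSpace ℝ E]
    [FiniteDimensional ℝ E] (S : Set E) (hne : S.Nonempty) (hS : ∀ x ∈ S, ∀ y ∈ S, ‖x - y‖ ≤ 1) :
    ∃ K : Set E, S ⊆ K ∧ IsCompact K ∧ Convex ℝ K ∧ (∀ x ∈ K, ∀ y ∈ K, ‖x - y‖ ≤ 1) ∧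
      ∀ u : E, ‖u‖ = 1 → ∃ x ∈ K, x + u ∈ K ∧ ∀ y ∈ K, ⟪u, x⟫ ≤ ⟪u, y⟫ := by
  obtain ⟨K, hSK, hK⟩ := zorn_subset_nonempty {K : Set E | ∀ x ∈ K, ∀ y ∈ K, ‖x - y‖ ≤ 1}
    (fun c hc hch _ => ⟨⋃₀ c, by
      rintro x ⟨s, hs, hx⟩ y ⟨t, ht, hy⟩
      rcases hch.total hs ht with h | h
      · exact hc ht x (h hx) y hy
      · exact hc hs x hx y (h hy), fun s hs => Set.subset_sUnion_of_mem hs⟩) S hS
  have h1 : ∀ x ∈ K, ∀ y ∈ K, ‖x - y‖ ≤ 1 := hK.prop
  have h2 : ∀ z, (∀ y ∈ K, ‖z - y‖ ≤ 1) → z ∈ K := by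
    intro z hz
    refine hK.le_of_ge (y := insert z K) ?_ (Set.subset_insert _ _) (Set.mem_insert _ _)
    rintro x (rfl | hx) y (rfl | hy)
    · simp
    · exact hz y hy
    · rw [norm_sub_rev]; exact hz x hx
    · exact h1 x hx y hy
  have e : K = ⋂ y ∈ K, Metric.closedBall y 1 := by
    ext z
    simp only [Set.mem_iInter, Metric.mem_closedBall, dist_eq_norm]
    exact ⟨fun hz y hy => h1 z hz y hy, h2 z⟩
  obtain ⟨x0, hx0⟩ := hne
  have hc : IsCompact K := by
    refine Metric.isCompact_of_isClosed_isBounded ?_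
      ((Metric.isBounded_closedBall (x := x0) (r := 1)).subset fun x hx => ?_)
    · rw [e]; exact isClosed_biInter fun _ _ => Metric.isClosed_closedBall
    · rw [Metric.mem_closedBall, dist_eq_norm]; exact h1 x hx x0 (hSK hx0)
  refine ⟨K, hSK, hc, ?_, h1, fun u hu => ?_⟩
  · rw [e]; exact convex_iInter₂ fun _ _ => convex_closedBall _ _
  obtain ⟨x, hx, hm⟩ := hc.exists_isMinOn ⟨x0, hSK hx0⟩ (f := fun y => ⟪u, y⟫) (by fun_prop)
  refine ⟨x, hx, h2 _ fun y hy => ?_, fun y hy => hm hy⟩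
  have key : ∀ t : ℝ, 0 < t → t < 1 → (1 - t) * ‖y - x‖ ^ 2 ≤ 2 * ⟪u, y - x⟫ := by
    intro t t0 t1
    have hp : x + t • (y - x) - (t * (1 - t) * ‖y - x‖ ^ 2 / 2) • u ∈ K := by
      refine h2 _ fun c hc => ?_
      have a1 := h1 x hx c hc
      have a2 := h1 y hy c hc
      have a0 : 0 ≤ t * (1 - t) * ‖y - x‖ ^ 2 / 2 := by have := sub_pos.2 t1; positivity
      have a3 : ‖x + t • (y - x) - c‖ ^ 2 =
          (1 - t) * ‖x - c‖ ^ 2 + t * ‖y - c‖ ^ 2 - t * (1 - t) * ‖y - x‖ ^ 2 := by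
        have b1 : x + t • (y - x) - c = (1 - t) • (x - c) + t • (y - c) := by module
        have b2 : y - x = (y - c) - (x - c) := by abel
        rw [b1, b2]
        generalize x - c = p
        generalize y - c = q
        simp only [← real_inner_self_eq_norm_sq, inner_add_left, inner_add_right, inner_sub_left,
          inner_sub_right, real_inner_smul_left, real_inner_smul_right, real_inner_comm p q]
        ring
      have a4 : ‖x + t • (y - x) - c‖ ≤ 1 - t * (1 - t) * ‖y - x‖ ^ 2 / 2 := by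
        have b1 : ‖x - c‖ ^ 2 ≤ 1 := pow_le_one₀ (norm_nonneg _) a1
        have b2 : ‖y - c‖ ^ 2 ≤ 1 := pow_le_one₀ (norm_nonneg _) a2
        nlinarith [sq_nonneg (‖x + t • (y - x) - c‖ - 1), mul_le_mul_of_nonneg_left b1 (sub_pos.2 t1).le,
          mul_le_mul_of_nonneg_left b2 t0.le]
      have a5 := norm_sub_le (x + t • (y - x) - c) ((t * (1 - t) * ‖y - x‖ ^ 2 / 2) • u)
      rw [norm_smul, hu, Real.norm_of_nonneg a0, sub_right_comm] at a5
      linarith
    have := hm hp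
    simp only [Set.mem_ofPred_eq, inner_sub_right u (_ + _), inner_add_right, real_inner_smul_right,
      real_inner_self_eq_norm_sq, hu] at this
    nlinarith
  have k2 : ‖y - x‖ ^ 2 ≤ 2 * ⟪u, y - x⟫ := by
    have : Filter.Tendsto (fun t : ℝ => (1 - t) * ‖y - x‖ ^ 2) (nhdsWithin 0 (Set.Ioi 0))
        (nhds ((1 - 0) * ‖y - x‖ ^ 2)) :=
      (Continuous.tendsto (by fun_prop) 0).mono_left nhdsWithin_le_nhds
    rw [sub_zero, one_mul] at this
    exact le_of_tendsto this (Filter.mem_of_superset (Ioo_mem_nhdsGT one_pos) fun t ht =>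
      key t ht.1 ht.2)
  have : x + u - y = u - (y - x) := by abel
  rw [this]
  refine (pow_le_one_iff_of_nonneg (norm_nonneg _) two_ne_zero).1 ?_
  rw [norm_sub_sq_real, hu]
  linarith

end Pool.Agent.Lib.helper9.ConstWidth
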