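import Mathlib

set_option autoImplicit false
open Filter Topology MeasureTheory ProbabilityTheory Finset

namespace Pool.Agent.Lib.helper9

/-- for every probability vector on the naturals there is a sequence with these frequencies -/
theorem exists_seq_freq (π : ℕ → ℝ) (h0 : ∀ k, 0 ≤ π k) (h1 : HasSum π 1) :
    ∃ ω : ℕ → ℕ, ∀ k, Tendsto (fun n : ℕ => (∑ i ∈ range n, if ω i = k then (1 : ℝ) else 0) / n)
      atTop (𝓝 (π k)) := by
  let p : PMF ℕ := ⟨fun k => ENNReal.ofReal (π k), by
    have := ENNReal.ofReal_tsum_of_nonneg h0 h1.summable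
    rw [h1.tsum_eq, ENNReal.ofReal_one] at this
    rw [this]
    exact ENNReal.summable.hasSum⟩
  let μ : Measure (ℕ → ℕ) := Measure.infinitePi fun _ => p.toMeasure
  have hk : ∀ k, ∀ᵐ ω ∂μ, Tendsto
      (fun n : ℕ => (∑ i ∈ range n, if ω i = k then (1 : ℝ) else 0) / n) atTop (𝓝 (π k)) := by
    intro k
    let f : ℕ → ℝ := fun a => if a = k then 1 else 0
    have hf : Measurable f := measurable_from_top
    have hfi : Integrable f p.toMeasure := by
      refine Integrable.of_bound hf.aestronglyMeasurable 1 (Eventually.of_forall fun a => ?_)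
      simp only [f]; split_ifs <;> simp
    have hmp := fun i => measurePreserving_eval_infinitePi (fun _ : ℕ => p.toMeasure) i
    have h := strong_law_ae_real (μ := μ) (fun i ω => f (ω i))
      ((hmp 0).integrable_comp_of_integrable hfi)
      (fun i j hij => (iIndepFun_infinitePi (X := fun _ a => f a) (fun _ => hf)).indepFun hij)
      (fun i => ⟨(hf.comp (measurable_pi_apply i)).aemeasurable,
        (hf.comp (measurable_pi_apply 0)).aemeasurable, by
          have e : ∀ j, Measure.map (fun ω : ℕ → ℕ => f (ω j)) μ = Measure.map f p.toMeasure := by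
            intro j
            rw [← (hmp j).map_eq, Measure.map_map hf (measurable_pi_apply j)]
            rfl
          rw [e, e]⟩)
    have e : ∫ ω, f (ω 0) ∂μ = π k := by
      have := integral_map (μ := μ) (measurable_pi_apply (0 : ℕ)).aemeasurable
        (f := f) hf.aestronglyMeasurable
      rw [← this]
      erw [(hmp 0).map_eq]
      rw [PMF.integral_eq_tsum _ _ hfi, tsum_eq_single k]
      · simp only [f, if_true, smul_eq_mul, mul_one]
        exact ENNReal.toReal_ofReal (h0 k)
      · intro a ha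
        simp [f, ha]
    rw [e] at h
    exact h
  exact (ae_all_iff.2 hk).exists

/-- reals with prescribed continued fraction digits -/
theorem exists_cf (a : ℕ → ℕ) (ha : ∀ i, 1 ≤ a i) :
    ∃ z : ℕ → ℝ, ∀ i, 1 < z i ∧ z i = a i + (z (i + 1))⁻¹ := by
  have hK : IsCompact (Set.pi Set.univ fun _ : ℕ => Set.Icc (0 : ℝ) 1) :=
    isCompact_univ_pi fun _ => isCompact_Icc
  have h := hK.inter_iInter_nonempty (fun i : ℕ => {t : ℕ → ℝ | t i * (a i + t (i + 1)) = 1})
    (fun i => isClosed_eq (by fun_prop) continuous_const) ?_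
  · obtain ⟨t, ht, ht'⟩ := h
    have h1 : ∀ i, t i * (a i + t (i + 1)) = 1 := fun i => Set.mem_iInter.1 ht' i
    have h2 : ∀ i, 0 < t i := by
      intro i
      refine lt_of_le_of_ne (ht i trivial).1 fun h => ?_
      have := h1 i
      rw [← h] at this
      simp at this
    refine ⟨fun i => (t i)⁻¹, fun i => ?_⟩
    have h3 : (t i)⁻¹ = a i + t (i + 1) := inv_eq_of_mul_eq_one_right (h1 i)
    have h4 : (1 : ℝ) ≤ a i := by exact_mod_cast ha i
    simp only [inv_inv]
    exact ⟨by rw [h3]; linarith [h2 (i + 1)], h3⟩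
  · have key : ∀ (N : ℕ) (b : ℕ → ℕ), (∀ i, 1 ≤ b i) → ∃ t : ℕ → ℝ, (∀ i, t i ∈ Set.Icc (0 : ℝ) 1) ∧
        ∀ i < N, t i * (b i + t (i + 1)) = 1 := by
      intro N
      induction N with
      | zero => exact fun b _ => ⟨0, by simp, by simp⟩
      | succ N ih =>
        intro b hb
        obtain ⟨t, ht, ht'⟩ := ih (fun i => b (i + 1)) fun i => hb _
        have h4 : (1 : ℝ) ≤ b 0 := by exact_mod_cast hb 0
        have h5 : (1 : ℝ) ≤ b 0 + t 0 := by linarith [(ht 0).1]
        refine ⟨fun i => Nat.rec (b 0 + t 0)⁻¹ (fun j _ => t j) i, ?_, ?_⟩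
        · rintro (_ | i)
          · exact ⟨inv_nonneg.2 (by linarith), inv_le_one_of_one_le₀ h5⟩
          · exact ht i
        · rintro (_ | i) hi
          · exact inv_mul_cancel₀ (by positivity)
          · exact ht' i (by omega)
    intro u
    obtain ⟨t, ht, ht'⟩ := key (u.sup id + 1) a ha
    refine ⟨t, fun i _ => ht i, Set.mem_iInter₂.2 fun i hi => ht' i ?_⟩
    have : id i ≤ u.sup id := Finset.le_sup hi
    simp only [id] at this
    omega

/-- complete quotients -/
noncomputable def cq (w : ℝ) (j : ℕ) : ℝ := (fun v : ℝ => (Int.fract v)⁻¹)^[j] w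

theorem cq_succ (w : ℝ) (j : ℕ) : cq w (j + 1) = cq (Int.fract w)⁻¹ j := rfl

theorem cq_step {w w' : ℝ} {c : ℤ} (h1 : 1 < w') (h : w = c + w'⁻¹) :
    ⌊w⌋ = c ∧ Int.fract w ≠ 0 ∧ (Int.fract w)⁻¹ = w' := by
  have h0 : 0 < w'⁻¹ := by positivity
  have h2 : w'⁻¹ < 1 := inv_lt_one_of_one_lt₀ h1
  have h3 : ⌊w⌋ = c := by
    rw [Int.floor_eq_iff]; constructor <;> linarith
  have h4 : Int.fract w = w'⁻¹ := by rw [Int.fract, h3, h]; ring
  exact ⟨h3, by rw [h4]; exact h0.ne', by rw [h4, inv_inv]⟩

theorem partDen_cq (j : ℕ) : ∀ (w : ℝ) (b : ℝ), (GenContFract.of w).partDens.get? j = some b →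
    b = ⌊cq w (j + 1)⌋ := by
  induction j with
  | zero =>
    intro w b h
    by_cases h0 : Int.fract w = 0
    · obtain ⟨a, rfl⟩ : ∃ a : ℤ, w = a := ⟨⌊w⌋, eq_of_sub_eq_zero h0⟩
      simp [GenContFract.partDens, GenContFract.of_s_of_int] at h
    · have := GenContFract.partDen_eq_s_b (GenContFract.of_s_head h0 : (GenContFract.of w).s.get? 0 = _)
      rw [this] at h
      exact (Option.some.inj h).symm
  | succ j ih =>
    intro w b h
    rw [cq_succ]
    apply ih
    simp only [GenContFract.partDens, Stream'.Seq.map_get?] at h ⊢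
    rwa [GenContFract.of_s_succ] at h

theorem partDen_of_seq (a : ℕ → ℕ) (j : ℕ) : ∀ (z : ℕ → ℝ) (s : ℕ) (c : ℤ),
    (∀ i, 1 < z i ∧ z i = a i + (z (i + 1))⁻¹) →
    (GenContFract.of (c + (z s)⁻¹)).partDens.get? j = some (a (s + j) : ℝ) := by
  induction j with
  | zero =>
    intro z s c hz
    obtain ⟨-, h2, h3⟩ := cq_step (c := c) (hz s).1 rfl
    have := GenContFract.partDen_eq_s_b
      (GenContFract.of_s_head h2 : (GenContFract.of (c + (z s)⁻¹)).s.get? 0 = _)
    rw [this, h3, (cq_step (c := a s) (hz (s + 1)).1 (by exact_mod_cast (hz s).2)).1]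
    simp
  | succ j ih =>
    intro z s c hz
    obtain ⟨-, h2, h3⟩ := cq_step (c := c) (hz s).1 rfl
    have := ih z (s + 1) (a s) hz
    simp only [GenContFract.partDens, Stream'.Seq.map_get?] at this ⊢
    rw [GenContFract.of_s_succ, h3, (hz s).2, show s + (j + 1) = s + 1 + j by ring]
    exact_mod_cast this

end Pool.Agent.Lib.helper9
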