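import Mathlib
import Pool.Agent.Lib.helper18.Las

set_option autoImplicit false

namespace Pool.Agent.Lib.helper9.Lyap

open NormedSpace Filter Topology MeasureTheory Set Module
open scoped InnerProductSpace

section
variable {R : Type*} [NormedRing R] [NormedAlgebra ℝ R] [CompleteSpace R]

theorem decay (M : R) (N : ℕ) (hN : 1 ≤ N) (h : ‖exp M ^ N‖ < 1) :
    ∃ C a : ℝ, 0 < a ∧ ∀ t : ℝ, 0 ≤ t → ‖exp (t • M)‖ ≤ C * Real.exp (-a * t) := by
  let _ : NormedAlgebra ℚ R := .restrictScalars ℚ ℝ R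
  have N0 : (0 : ℝ) < N := by exact_mod_cast hN
  obtain ⟨K, hK⟩ := (isCompact_Icc (a := (0 : ℝ)) (b := 2 * N)).exists_bound_of_continuousOn
    (f := fun t => exp (t • M))
    (fun t _ => (hasDerivAt_exp_smul_const M t).continuousAt.continuousWithinAt)
  have K0 : 0 ≤ K := (norm_nonneg _).trans (hK 0 ⟨le_rfl, by positivity⟩)
  set q := max ‖exp M ^ N‖ (1 / 2) with hq
  have q0 : 0 < q := lt_max_of_lt_right (by norm_num)
  have q1 : Real.log q < 0 := Real.log_neg q0 (max_lt h (by norm_num))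
  have : ∀ k : ℕ, ∀ t : ℝ, 0 ≤ t → t ≤ N → ‖exp ((t + k * N) • M)‖ ≤ K * q ^ k := fun k t a b => by
    induction k with
    | zero => simpa using hK t ⟨a, by linarith⟩
    | succ k ih =>
      rw [show t + (k + 1 : ℕ) * N = t + k * N + N by push_cast; ring, add_smul _ (N : ℝ),
        exp_add_of_commute (((Commute.refl M).smul_left _).smul_right _), Nat.cast_smul_eq_nsmul,
        exp_nsmul, pow_succ, ← mul_assoc]
      exact (norm_mul_le _ _).trans (mul_le_mul ih (le_max_left _ _) (norm_nonneg _) (by positivity))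
  refine ⟨K / q, -Real.log q / N, div_pos (by linarith) N0, fun t ht => ?_⟩
  have a := Nat.floor_le (div_nonneg ht N0.le)
  have b := Nat.lt_floor_add_one (t / N)
  have c := this ⌊t / N⌋₊ (t - ⌊t / N⌋₊ * N) (by rw [le_div_iff₀ N0] at a; linarith)
    (by rw [div_lt_iff₀ N0] at b; linarith)
  rw [sub_add_cancel] at c
  refine c.trans ?_
  rw [div_mul_eq_mul_div, mul_div_assoc]
  gcongr
  rw [le_div_iff₀ q0, ← pow_succ, ← Real.exp_log (pow_pos q0 _), Real.log_pow, Real.exp_le_exp,
    show -(-Real.log q / N) * t = t / N * Real.log q by ring]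
  push_cast
  nlinarith

theorem lyap [StarRing R] [NormedStarGroup R] [StarModule ℝ R] (M : R) (C a : ℝ) (a0 : 0 < a)
    (h : ∀ t : ℝ, 0 ≤ t → ‖exp (t • M)‖ ≤ C * Real.exp (-a * t)) :
    IntegrableOn (fun t : ℝ => exp (t • star M) * exp (t • M)) (Ioi 0) ∧
    star M * (∫ t in Ioi (0 : ℝ), exp (t • star M) * exp (t • M)) +
      (∫ t in Ioi (0 : ℝ), exp (t • star M) * exp (t • M)) * M = -1 := by
  let _ : NormedAlgebra ℚ R := .restrictScalars ℚ ℝ R
  have d := fun t : ℝ => (hasDerivAt_exp_smul_const' (star M) t).fun_mul (hasDerivAt_exp_smul_const M t)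
  have b : ∀ t : ℝ, 0 ≤ t → ‖exp (t • star M) * exp (t • M)‖ ≤ C ^ 2 * Real.exp (-(2 * a) * t) :=
    fun t ht => by
      rw [show t • star M = star (t • M) by simp, ← star_exp, show -(2 * a) * t = -a * t + -a * t by ring,
        Real.exp_add]
      refine (norm_mul_le _ _).trans ?_
      rw [norm_star]
      nlinarith [h t ht, norm_nonneg (exp (t • M))]
  have i : IntegrableOn (fun t : ℝ => exp (t • star M) * exp (t • M)) (Ioi 0) :=
    ((exp_neg_integrableOn_Ioi 0 (b := 2 * a) (by linarith)).const_mul (C ^ 2)).mono'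
      (continuous_iff_continuousAt.2 fun t => (d t).continuousAt).aestronglyMeasurable
      ((ae_restrict_iff' measurableSet_Ioi).2 (.of_forall fun t ht => b t (le_of_lt ht)))
  refine ⟨i, ?_⟩
  have l : Tendsto (fun t : ℝ => exp (t • star M) * exp (t • M)) atTop (𝓝 0) := by
    refine squeeze_zero_norm' ((eventually_ge_atTop 0).mono b) ?_
    simpa using (Real.tendsto_exp_atBot.comp
      (tendsto_id.const_mul_atTop_of_neg (show -(2 * a) < 0 by linarith))).const_mul (C ^ 2)
  have i1 := i.const_mul (star M)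
  have i2 := i.mul_const M
  have := integral_Ioi_of_hasDerivAt_of_tendsto' (a := 0) (fun t _ => d t)
    ((i1.add i2).congr (.of_forall fun t => by simp only [mul_assoc, Pi.add_apply])) l
  simp only [zero_smul, exp_zero, mul_one, zero_sub] at this
  rw [← this, ← integral_const_mul_of_integrable i, ← integral_mul_const_of_integrable i,
    ← integral_add i1 i2]
  simp only [mul_assoc]

end

variable {E : Type*} [NormedAddCommGroup E] [InnerProductSpace ℂ E] [FiniteDimensional ℂ E]

theorem exp_eig [CompleteSpace E] (M : E →L[ℂ] E) (μ : ℂ) (w : E) (h : M w = μ • w) :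
    exp M w = Complex.exp μ • w := by
  have p : ∀ n : ℕ, (M ^ n) w = μ ^ n • w := fun n => by
    induction n with
    | zero => simp
    | succ n ih => rw [pow_succ', mul_apply_eq_comp, ih, map_smul, h, smul_smul, pow_succ]
  have a := (exp_series_hasSum_exp' (𝕂 := ℂ) M).mapL (ContinuousLinearMap.apply ℂ E w)
  have b := (exp_series_hasSum_exp' (𝕂 := ℂ) μ).smul_const w
  rw [Complex.exp_eq_exp_ℂ]
  exact a.unique (by simpa [p, smul_smul] using b)

theorem stable [CompleteSpace E] [Nontrivial E] (M : E →L[ℂ] E)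
    (h : ∀ (μ : ℂ) (w : E), w ≠ 0 → M w = μ • w → μ.re < 0) :
    ∃ C a : ℝ, 0 < a ∧ ∀ t : ℝ, 0 ≤ t → ‖exp (t • M)‖ ≤ C * Real.exp (-a * t) := by
  obtain ⟨N, a, b⟩ := helper18.Las.pow_norm_lt (exp M) fun l v hl hv => by
    by_contra v0
    have c : Commute (exp M : E →L[ℂ] E).toLinearMap M.toLinearMap :=
      congrArg ContinuousLinearMap.toLinearMap ((Commute.refl M).exp_left).eq
    have m := End.mapsTo_genEigenspace_of_comm c l 1
    have : Nontrivial (End.genEigenspace (exp M : E →L[ℂ] E).toLinearMap l 1) :=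
      ⟨⟨v, End.mem_eigenspace_iff.2 hv⟩, 0, by simpa using v0⟩
    obtain ⟨μ, hμ⟩ := End.exists_eigenvalue (M.toLinearMap.restrict m)
    obtain ⟨w, hw⟩ := hμ.exists_hasEigenvector
    have w0 : w.1 ≠ 0 := by simpa using hw.2
    have e : M w.1 = μ • w.1 := congrArg Subtype.val hw.apply_eq_smul
    have f : exp M w.1 = l • w.1 := End.mem_eigenspace_iff.1 w.2
    rw [exp_eig M μ _ e] at f
    rw [← smul_left_injective ℂ w0 f, Complex.norm_exp, Real.one_le_exp_iff] at hl
    exact hl.not_gt (h μ _ w0 e)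
  exact decay M N a b

theorem tr (N : E →ₗ[ℂ] E) (γ : ℝ) (h : ∀ ν : ℂ, End.HasEigenvalue N ν → γ * -ν.re ≤ 1) :
    γ * -(LinearMap.trace ℂ E N).re ≤ finrank ℂ E := by
  rw [End.trace_eq_sum_roots_charpoly_of_splits (IsAlgClosed.splits _)]
  have : ∀ s : Multiset ℂ, (∀ ν ∈ s, γ * -ν.re ≤ 1) → γ * -s.sum.re ≤ s.card := fun s hs => by
    induction s using Multiset.induction with
    | empty => simp
    | cons a s ih =>
      have := ih fun ν hν => hs ν (Multiset.mem_cons_of_mem hν)
      have := hs a (Multiset.mem_cons_self _ _)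
      simp only [Multiset.sum_cons, Multiset.card_cons, Complex.add_re]
      push_cast
      linarith
  refine (this _ fun ν hν => h ν ((End.hasEigenvalue_iff_isRoot_charpoly _ _).2
    (Polynomial.isRoot_of_mem_roots hν))).trans ?_
  exact_mod_cast (Polynomial.card_roots' _).trans_eq (LinearMap.charpoly_natDegree N)

theorem main [CompleteSpace E] (M X : E →L[ℂ] E) (γ : ℝ) (g0 : 0 < γ)
    (h : ∀ (μ : ℂ) (w : E), w ≠ 0 → M w = μ • w → μ.re ≤ -γ) (hX : X.IsPositive)
    (L : star M * X + X * M = -1) (v : E) :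
    γ * ‖v‖ ^ 2 ≤ 2 * finrank ℂ E * ‖X‖ * ‖M v‖ ^ 2 := by
  have inj : Function.Injective M.toLinearMap := (injective_iff_map_eq_zero _).2 fun w hw => by
    by_contra w0
    have := h 0 w w0 (by simpa using hw)
    simp at this
    linarith
  let e := LinearEquiv.ofInjectiveEndo _ inj
  let N : E →ₗ[ℂ] E := e.symm
  have MN : ∀ w, M (N w) = w := e.apply_symm_apply
  have t := tr N γ fun ν hν => by
    obtain ⟨w, hw⟩ := hν.exists_hasEigenvector
    have a := MN w
    rw [hw.apply_eq_smul, map_smul] at a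
    have n0 : ν ≠ 0 := by rintro rfl; exact hw.2 (by simpa using a.symm)
    have := h ν⁻¹ w hw.2 (by rw [eq_inv_smul_iff₀ n0, a])
    rw [Complex.inv_re, div_le_iff₀ (Complex.normSq_pos.2 n0), Complex.normSq_apply] at this
    by_contra c
    have : 0 < -ν.re := by nlinarith
    nlinarith [mul_self_nonneg ν.im]
  have s := hX.toLinearMap.isSymmetric
  let b := s.eigenvectorBasis rfl
  have k : ∀ i, ‖N (b i)‖ ^ 2 ≤ 2 * ‖X‖ * -(⟪b i, N (b i)⟫_ℂ).re := fun i => by
    have x0 := hX.toLinearMap.nonneg_eigenvalues rfl i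
    have x1 : X (b i) = (s.eigenvalues rfl i : ℂ) • b i := s.apply_eigenvectorBasis rfl i
    generalize s.eigenvalues rfl i = x at x0 x1
    have x2 := X.le_opNorm (b i)
    rw [x1, norm_smul, b.norm_eq_one, Complex.norm_real, Real.norm_of_nonneg x0] at x2
    have a := congrArg (fun T : E →L[ℂ] E => (⟪N (b i), T (N (b i))⟫_ℂ).re) L
    have s' : ⟪b i, X (N (b i))⟫_ℂ = ⟪X (b i), N (b i)⟫_ℂ := (s _ _).symm
    simp only [add_apply, mul_apply_eq_comp, inner_add_right, MN,
      ContinuousLinearMap.star_eq_adjoint, ContinuousLinearMap.adjoint_inner_right, s', x1,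
      inner_smul_left, inner_smul_right, ← inner_conj_symm (N (b i)) (b i)] at a
    simp [inner_self_eq_norm_sq_to_K] at a
    norm_cast at a
    rw [show (⟪N (b i), b i⟫_ℂ).re = (⟪b i, N (b i)⟫_ℂ).re from inner_re_symm (𝕜 := ℂ) _ _] at a
    by_cases c : x = 0
    · have : N (b i) = 0 := by simpa [c] using a
      simp [this]
    · have : 0 ≤ -(⟪b i, N (b i)⟫_ℂ).re := by
        by_contra d
        nlinarith [sq_nonneg ‖N (b i)‖, lt_of_le_of_ne x0 (Ne.symm c)]
      nlinarith
  have f : ‖v‖ ≤ ∑ i, ‖⟪b i, M v⟫_ℂ‖ * ‖N (b i)‖ := by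
    conv_lhs => rw [← e.symm_apply_apply v, ← b.sum_repr' (e v), map_sum]
    refine (norm_sum_le _ _).trans_eq (Finset.sum_congr rfl fun i _ => ?_)
    rw [map_smul, norm_smul]; rfl
  have g := (pow_le_pow_left₀ (norm_nonneg _) f 2).trans (Finset.sum_mul_sq_le_sq_mul_sq _ _ _)
  rw [b.sum_sq_norm_inner_right] at g
  have k := Finset.sum_le_sum fun i (_ : i ∈ Finset.univ) => k i
  rw [← Finset.mul_sum, Finset.sum_neg_distrib, ← Complex.re_sum, ← LinearMap.trace_eq_sum_inner] at k
  have := mul_le_mul_of_nonneg_left (g.trans (mul_le_mul_of_nonneg_left k (sq_nonneg _))) g0.le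
  have := mul_le_mul_of_nonneg_left t (show 0 ≤ 2 * ‖X‖ * ‖M v‖ ^ 2 by positivity)
  linarith

theorem pos [CompleteSpace E] (M : E →L[ℂ] E) :
    (∫ t in Ioi (0 : ℝ), exp (t • star M) * exp (t • M)).IsPositive := by
  let _ : NormedAlgebra ℚ (E →L[ℂ] E) := .restrictScalars ℚ ℝ _
  rw [← ContinuousLinearMap.nonneg_iff_isPositive]
  refine integral_nonneg fun t => ?_
  show 0 ≤ exp (t • star M) * exp (t • M)
  rw [show t • star M = star (t • M) by simp, ← star_exp]
  exact star_mul_self_nonneg _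

end Pool.Agent.Lib.helper9.Lyap
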