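import Mathlib

set_option autoImplicit false

namespace Pool.Agent.Lib.helper9.Pratt

/-- modular power with fuel -/
def pm (a m : ℕ) : ℕ → ℕ → ℕ
  | 0, _ => 1
  | f + 1, e => (pm a m f (e / 2)) ^ 2 * a ^ (e % 2) % m

theorem pm_eq (a m : ℕ) : ∀ f e, e < 2 ^ f → ((pm a m f e : ℕ) : ZMod m) = (a : ZMod m) ^ e
  | 0, e, h => by
    obtain rfl : e = 0 := by omega
    simp [pm]
  | f + 1, e, h => by
    rw [pm, ZMod.natCast_mod, Nat.cast_mul, Nat.cast_pow, Nat.cast_pow, pm_eq a m f (e / 2) (by omega), ← pow_mul,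
      ← pow_add, Nat.div_add_mod']

/-- Pratt step: `L` lists the prime factors of `p - 1` with multiplicity -/
theorem luc (p a : ℕ) (L : List ℕ) (hL : ∀ q ∈ L, q.Prime)
    (h : L.prod = p - 1 ∧ 1 < p ∧ p < 2 ^ 200 ∧ pm a p 200 (p - 1) = 1 ∧
      ∀ q ∈ L, pm a p 200 ((p - 1) / q) % p ≠ 1) : p.Prime := by
  obtain ⟨e, h1, b, c, d⟩ := h
  refine lucas_primality p a (by rw [← pm_eq a p 200 _ (by omega), c, Nat.cast_one]) fun q hq k z => ?_
  obtain ⟨r, hr, k⟩ := (Prime.dvd_prod_iff hq.prime).1 (e ▸ k)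
  obtain rfl := (Nat.prime_dvd_prime_iff_eq hq (hL r hr)).1 k
  rw [← pm_eq a p 200 _ ((Nat.div_le_self _ _).trans_lt (by omega)), ← Nat.cast_one (R := ZMod p),
    ZMod.natCast_eq_natCast_iff', Nat.mod_eq_of_lt h1] at z
  exact d q hr z

end Pool.Agent.Lib.helper9.Pratt
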