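import Mathlib

set_option autoImplicit false

namespace Pool.Agent.Lib.helper9.RCF

open Polynomial Module

theorem half {F N : Type*} [Field F] [Field N] [Algebra F N] [FiniteDimensional F N] [IsGalois F N]
    {k : ℕ} (h : finrank F N = 2 ^ (k + 1)) :
    ∃ E : IntermediateField F N, finrank F E = 2 ∧ finrank E N = 2 ^ k := by
  obtain ⟨H, hH⟩ := Sylow.exists_subgroup_card_pow_prime (G := Gal(N/F)) 2 (n := k)
    (by rw [IsGalois.card_aut_eq_finrank, h]; exact pow_dvd_pow 2 (Nat.le_succ k))
  have h1 := (IntermediateField.finrank_fixedField_eq_card H).trans hH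
  have h2 := finrank_mul_finrank F (IntermediateField.fixedField H) N
  rw [h1, h, pow_succ'] at h2
  exact ⟨_, Nat.eq_of_mul_eq_mul_right (by positivity) h2, h1⟩

theorem quad {F E : Type*} [Field F] [Field E] [Algebra F E] [CharZero F] (h : finrank F E = 2) :
    ∃ (b : E) (d : F), b ^ 2 = algebraMap F E d ∧ ¬ IsSquare d ∧
      ∀ z : E, ∃ u v : F, z = algebraMap F E u + algebraMap F E v * b := by
  have : FiniteDimensional F E := .of_finrank_pos (by omega)
  have : CharZero E := charZero_of_injective_algebraMap (algebraMap F E).injective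
  obtain ⟨a, ha⟩ : ∃ a : E, a ∉ (algebraMap F E).range := by
    by_contra h'
    push Not at h'
    have : finrank F E ≤ finrank F F :=
      LinearMap.finrank_le_finrank_of_surjective (f := Algebra.linearMap F E) h'
    rw [finrank_self] at this
    omega
  have hi : IsIntegral F a := .of_finite F a
  have h1 : (minpoly F a).natDegree = 2 :=
    le_antisymm (h ▸ minpoly.natDegree_le a) ((minpoly.two_le_natDegree_iff hi).2 ha)
  have h2 := minpoly.aeval F a
  have h3 : (minpoly F a).coeff 2 = 1 := by rw [← h1]; exact minpoly.monic hi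
  rw [aeval_eq_sum_range, h1] at h2
  simp only [Finset.sum_range_succ, Finset.range_zero, Finset.sum_empty, h3, Algebra.smul_def,
    map_one] at h2
  set p := (minpoly F a).coeff 1
  set q := (minpoly F a).coeff 0
  have h4 : ∀ s : F, 2 * a + algebraMap F E p ≠ algebraMap F E s := fun s hs => ha
    ⟨(s - p) / 2, by rw [map_div₀, map_sub, ← hs, map_ofNat]; ring⟩
  have h5 : (2 * a + algebraMap F E p) ^ 2 = algebraMap F E (p ^ 2 - 4 * q) := by
    rw [map_sub, map_mul, map_pow, map_ofNat]; linear_combination 4 * h2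
  refine ⟨_, _, h5, ?_, fun z => ?_⟩
  · rintro ⟨s, hs⟩
    rw [hs, map_mul, ← sq] at h5
    rcases sq_eq_sq_iff_eq_or_eq_neg.1 h5 with h6 | h6
    · exact h4 s h6
    · exact h4 (-s) (by rw [map_neg]; exact h6)
  · have h6 : LinearIndependent F ![(1 : E), 2 * a + algebraMap F E p] := by
      refine LinearIndependent.pair_iff.2 fun s t hst => ?_
      by_cases ht : t = 0
      · simpa [ht] using hst
      · refine absurd ?_ (h4 (-s / t))
        rw [Algebra.smul_def, Algebra.smul_def] at hst
        have : algebraMap F E t ≠ 0 := (_root_.map_ne_zero _).2 ht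
        rw [map_div₀, map_neg, eq_div_iff this]
        linear_combination hst
    have h7 := h6.span_eq_top_of_card_eq_finrank (by simp [h])
    have h8 : z ∈ Submodule.span F (Set.range ![(1 : E), 2 * a + algebraMap F E p]) := by
      rw [h7]; trivial
    obtain ⟨c, hc⟩ := (Submodule.mem_span_range_iff_exists_fun F).1 h8
    refine ⟨c 0, c 1, ?_⟩
    rw [← hc]
    simp [Fin.sum_univ_two, Algebra.smul_def]

variable {K : Type*} [Field K] [LinearOrder K] [IsStrictOrderedRing K] [IsRealClosed K]

theorem sq_closed {E : Type*} [Field E] [Algebra K E] (h : finrank K E = 2) (z : E) :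
    IsSquare z := by
  obtain ⟨b, d, h1, h2, h3⟩ := quad h
  obtain ⟨s, hs⟩ := IsRealClosed.isSquare_neg_of_not_isSquare h2
  have hs0 : s ≠ 0 := by
    rintro rfl
    exact h2 ⟨0, by linear_combination -hs⟩
  obtain ⟨u, v, rfl⟩ := h3 z
  obtain ⟨r', hr'⟩ := IsRealClosed.nonneg_iff_isSquare.1
    (show 0 ≤ u ^ 2 + (v * s) ^ 2 by positivity)
  have hr : |r'| ^ 2 = u ^ 2 + (v * s) ^ 2 := by rw [sq_abs, hr', sq]
  have hu : |u| ≤ |r'| := by
    rw [← sq_le_sq]; nlinarith [sq_nonneg (v * s)]
  have hd : d = -s ^ 2 := by linear_combination -hs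
  obtain ⟨x, hx⟩ := IsRealClosed.nonneg_iff_isSquare.1
    (show 0 ≤ (|r'| + u) / 2 by linarith [neg_abs_le u])
  by_cases hx0 : x = 0
  · have hu' : |r'| = -u := by rw [hx0] at hx; linarith
    have hv : v = 0 := by
      rw [hu'] at hr
      have : (v * s) ^ 2 = 0 := by linarith
      simpa [hs0] using this
    obtain ⟨y, hy⟩ := IsRealClosed.nonneg_iff_isSquare.1 (hu' ▸ abs_nonneg r')
    refine ⟨algebraMap K E (y / s) * b, ?_⟩
    have : u = (y / s) ^ 2 * d := by rw [hd]; field_simp; linear_combination -hy
    rw [hv, this, map_mul, map_pow, ← h1]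
    simp only [map_zero]
    ring
  · refine ⟨algebraMap K E x + algebraMap K E (v / (2 * x)) * b, ?_⟩
    have e1 : u = x ^ 2 + (v / (2 * x)) ^ 2 * d := by
      rw [hd]; field_simp
      have : |r'| = 2 * x ^ 2 - u := by linear_combination 2 * hx
      rw [this] at hr
      linear_combination -hr
    have e2 : v = 2 * x * (v / (2 * x)) := by field_simp
    have e3 := congrArg (algebraMap K E) e1
    have e4 := congrArg (algebraMap K E) e2
    rw [map_add, map_mul, map_pow, map_pow, ← h1] at e3
    rw [map_mul, map_mul, map_ofNat] at e4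
    linear_combination e3 + b * e4

theorem finrank_le_two {N : Type*} [Field N] [Algebra K N] [FiniteDimensional K N] [IsGalois K N] :
    finrank K N ≤ 2 := by
  obtain ⟨P⟩ : Nonempty (Sylow 2 Gal(N/K)) := inferInstance
  obtain ⟨m, hm⟩ := IsPGroup.iff_card.1 P.isPGroup'
  set E := IntermediateField.fixedField (P : Subgroup Gal(N/K))
  have h1 : finrank E N = Nat.card P := IntermediateField.finrank_fixedField_eq_card _
  have h2 := finrank_mul_finrank K E N
  have h3 := (P : Subgroup Gal(N/K)).index_mul_card
  rw [IsGalois.card_aut_eq_finrank, ← h2, h1] at h3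
  have h4 : (P : Subgroup Gal(N/K)).index = finrank K E :=
    Nat.eq_of_mul_eq_mul_right Nat.card_pos h3
  have h5 : Odd (finrank K E) := by
    rw [← h4, ← Nat.not_even_iff_odd, even_iff_two_dvd]; exact P.not_dvd_index
  obtain ⟨a, ha⟩ := Field.exists_primitive_element K E
  have hi : IsIntegral K a := .of_finite K a
  have h6 : (minpoly K a).natDegree = finrank K E := by
    rw [← IntermediateField.adjoin.finrank hi, ha, IntermediateField.finrank_top']
  obtain ⟨x, hx⟩ := IsRealClosed.exists_isRoot_of_odd_natDegree (h6 ▸ h5)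
  have h7 : (minpoly K a).natDegree = 1 := natDegree_eq_of_degree_eq_some
    (degree_eq_one_of_irreducible_of_root (minpoly.irreducible hi) hx)
  rw [← h6, h7, h1, hm, one_mul] at h2
  rcases m with _ | _ | m
  · omega
  · omega
  · obtain ⟨E1, e1, e2⟩ := half h2.symm
    obtain ⟨E2, e3, -⟩ := half e2
    obtain ⟨-, d, -, e4, -⟩ := quad e3
    exact absurd (sq_closed e1 d) e4

theorem natDegree_le_two {p : K[X]} (hp : Irreducible p) : p.natDegree ≤ 2 := by
  have : IsGalois K p.SplittingField := .of_separable_splitting_field hp.separable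
  obtain ⟨a, ha⟩ := (SplittingField.splits p).exists_eval_eq_zero
    (by rw [degree_map]; exact (degree_pos_of_irreducible hp).ne')
  rw [eval_map_algebraMap] at ha
  have h1 := minpoly.eq_of_irreducible hp ha
  have h2 := minpoly.natDegree_le (A := K) a
  rw [← h1, natDegree_mul_C (inv_ne_zero (leadingCoeff_ne_zero.2 hp.ne_zero))] at h2
  exact h2.trans finrank_le_two

/-- Intermediate value theorem for polynomials over a real closed field. -/
theorem ivt (p : K[X]) {a b : K} (hab : a < b) (h : p.eval a * p.eval b < 0) :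
    ∃ x, a < x ∧ x < b ∧ p.eval x = 0 := by
  induction p using WfDvdMonoid.induction_on_irreducible with
  | zero => simp at h
  | unit u hu =>
    obtain ⟨c, -, rfl⟩ := isUnit_iff.1 hu
    simp only [eval_C] at h
    exact absurd h (mul_self_nonneg c).not_gt
  | mul r q _ hq ih =>
    by_cases h1 : r.eval a * r.eval b < 0
    · obtain ⟨x, x1, x2, x3⟩ := ih h1
      exact ⟨x, x1, x2, by rw [eval_mul, x3, mul_zero]⟩
    have h2 : q.eval a * q.eval b < 0 := by
      by_contra h2
      have := mul_nonneg (not_lt.1 h1) (not_lt.1 h2)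
      rw [eval_mul, eval_mul] at h
      linarith
    have h3 : ∀ x, q.eval x = q.coeff 0 + q.coeff 1 * x + q.coeff 2 * x ^ 2 := fun x => by
      rw [eval_eq_sum_range' (Nat.lt_succ_of_le (natDegree_le_two hq))]
      simp [Finset.sum_range_succ]
    by_cases h4 : q.coeff 2 = 0
    · simp only [h3, h4, zero_mul, add_zero] at h2
      have h5 : q.coeff 1 ≠ 0 := fun h5 => by
        simp only [h5, zero_mul, add_zero] at h2
        exact absurd h2 (mul_self_nonneg _).not_gt
      have h6 : (a + q.coeff 0 / q.coeff 1) * (b + q.coeff 0 / q.coeff 1) < 0 := by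
        have : (a + q.coeff 0 / q.coeff 1) * (b + q.coeff 0 / q.coeff 1) =
          (q.coeff 0 + q.coeff 1 * a) * (q.coeff 0 + q.coeff 1 * b) / q.coeff 1 ^ 2 := by
          field_simp; ring
        rw [this]
        exact div_neg_of_neg_of_pos h2 (by positivity)
      refine ⟨-(q.coeff 0 / q.coeff 1), by nlinarith, by nlinarith, ?_⟩
      rw [eval_mul, h3, h4]
      field_simp
      ring
    · exfalso
      have h5 : ∀ x, 4 * q.coeff 2 * q.eval x =
          (2 * q.coeff 2 * x + q.coeff 1) ^ 2 - (q.coeff 1 ^ 2 - 4 * q.coeff 2 * q.coeff 0) :=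
        fun x => by rw [h3]; ring
      rcases le_or_gt 0 (q.coeff 1 ^ 2 - 4 * q.coeff 2 * q.coeff 0) with h6 | h6
      · obtain ⟨s, hs⟩ := IsRealClosed.nonneg_iff_isSquare.1 h6
        have h7 : q.IsRoot ((s - q.coeff 1) / (2 * q.coeff 2)) := by
          have := h5 ((s - q.coeff 1) / (2 * q.coeff 2))
          rw [hs, mul_div_cancel₀ _ (mul_ne_zero two_ne_zero h4)] at this
          have h8 : 4 * q.coeff 2 * q.eval ((s - q.coeff 1) / (2 * q.coeff 2)) = 0 := by
            rw [this]; ring
          simpa [h4] using h8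
        have h8 := degree_eq_one_of_irreducible_of_root hq h7
        exact h4 (coeff_eq_zero_of_degree_lt (by rw [h8]; norm_num))
      · have a1 : 0 < 4 * q.coeff 2 * q.eval a := by rw [h5]; nlinarith [sq_nonneg (2 * q.coeff 2 * a + q.coeff 1)]
        have a2 : 0 < 4 * q.coeff 2 * q.eval b := by rw [h5]; nlinarith [sq_nonneg (2 * q.coeff 2 * b + q.coeff 1)]
        have a3 := mul_pos a1 a2
        have a4 : 0 < q.coeff 2 ^ 2 := by positivity
        nlinarith

end Pool.Agent.Lib.helper9.RCF
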