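import Mathlib

set_option autoImplicit false

namespace Pool.Agent.Lib.helper9.UCLp

open MeasureTheory Filter Topology Set
open scoped ENNReal

/-- a uniform convexity inequality of power type -/
def UC (E : Type*) [NormedAddCommGroup E] [NormedSpace ℝ E] (q : ℝ) : Prop :=
  ∀ ε : ℝ, 0 < ε → ∃ C : ℝ, 0 ≤ C ∧ ∀ x y : E, ‖x - y‖ ^ q ≤
    C * (‖x‖ ^ q + ‖y‖ ^ q - 2 * ‖(2 : ℝ)⁻¹ • (x + y)‖ ^ q) + ε * (‖x‖ ^ q + ‖y‖ ^ q)

theorem gap_pos {q : ℝ} (hq : 1 < q) {a b : ℝ} (h : a ≠ b) :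
    0 < ‖a‖ ^ q + ‖b‖ ^ q - 2 * ‖(2 : ℝ)⁻¹ • (a + b)‖ ^ q := by
  by_cases e : ‖a‖ = ‖b‖
  · have : a = -b := (abs_eq_abs.1 e).resolve_left h
    subst this
    have : b ≠ 0 := fun c => h (by simp [c])
    simp only [neg_add_cancel, smul_zero, norm_zero, Real.zero_rpow (by linarith : q ≠ 0),
      mul_zero, sub_zero]
    positivity
  · have := (strictConvexOn_rpow hq).2 (norm_nonneg a) (norm_nonneg b) e
      (show (0 : ℝ) < 2⁻¹ by norm_num) (show (0 : ℝ) < 2⁻¹ by norm_num) (by norm_num)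
    have l : ‖(2 : ℝ)⁻¹ • (a + b)‖ ^ q ≤ ((2 : ℝ)⁻¹ • ‖a‖ + (2 : ℝ)⁻¹ • ‖b‖) ^ q := by
      refine Real.rpow_le_rpow (norm_nonneg _) ?_ (by linarith)
      rw [norm_smul, ← smul_add, Real.norm_of_nonneg (by norm_num)]
      exact mul_le_mul_of_nonneg_left (norm_add_le a b) (by norm_num)
    simp only [smul_eq_mul] at *
    linarith

theorem uc_real {q : ℝ} (hq : 1 < q) : UC ℝ q := by
  intro ε hε
  have q0 : 0 < q := by linarith
  let G : ℝ × ℝ → ℝ := fun z => ‖z.1‖ ^ q + ‖z.2‖ ^ q - 2 * ‖(2 : ℝ)⁻¹ • (z.1 + z.2)‖ ^ q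
  let K : Set (ℝ × ℝ) := {z | ‖z.1‖ ^ q + ‖z.2‖ ^ q = 1} ∩ {z | ε ≤ ‖z.1 - z.2‖ ^ q}
  have bd : ∀ z ∈ K, ‖z‖ ≤ 1 := fun z hz => by
    have := hz.1
    have a := Real.rpow_nonneg (norm_nonneg z.1) q
    have b := Real.rpow_nonneg (norm_nonneg z.2) q
    refine max_le ?_ ?_ <;> by_contra c <;>
      linarith [Real.one_lt_rpow (not_le.1 c) q0, show ‖z.1‖ ^ q + ‖z.2‖ ^ q = 1 from this]
  have hK : IsCompact K := (isCompact_closedBall 0 1).of_isClosed_subset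
    ((isClosed_eq (by fun_prop (disch := positivity)) continuous_const).inter
      (isClosed_le continuous_const (by fun_prop (disch := positivity))))
    fun z hz => mem_closedBall_zero_iff.2 (bd z hz)
  obtain ⟨m, m0, hm⟩ := hK.exists_forall_le' (f := G) (a := 0)
    (Continuous.continuousOn (by fun_prop (disch := positivity))) fun z hz => gap_pos hq fun e => by
      have := hz.2
      rw [mem_ofPred_eq, e, sub_self, norm_zero, Real.zero_rpow q0.ne'] at this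
      linarith
  have G0 : ∀ a b, 0 ≤ G (a, b) := fun a b => by
    by_cases e : a = b
    · subst e; simp only [G, smul_eq_mul, show (2 : ℝ)⁻¹ * (a + a) = a by ring]; linarith
    · exact (gap_pos hq e).le
  have key : ∀ a b : ℝ, ‖a‖ ^ q + ‖b‖ ^ q = 1 → ‖a - b‖ ^ q ≤ 2 ^ q / m * G (a, b) + ε := by
    intro a b h
    rcases le_total ε (‖a - b‖ ^ q) with c | c
    · have k : (a, b) ∈ K := ⟨h, c⟩
      have l : ‖a - b‖ ^ q ≤ 2 ^ q := Real.rpow_le_rpow (norm_nonneg _) ((norm_sub_le a b).trans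
        (by linarith [(norm_fst_le (a, b)).trans (bd _ k), (norm_snd_le (a, b)).trans (bd _ k)]))
        q0.le
      have : 2 ^ q / m * m ≤ 2 ^ q / m * G (a, b) := by gcongr; exact hm _ k
      rw [div_mul_cancel₀ _ m0.ne'] at this
      linarith
    · exact c.trans (le_add_of_nonneg_left (mul_nonneg (by positivity) (G0 a b)))
  refine ⟨2 ^ q / m, by positivity, fun a b => ?_⟩
  rcases eq_or_lt_of_le (show 0 ≤ ‖a‖ ^ q + ‖b‖ ^ q by positivity) with h | h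
  · have a0 := Real.rpow_nonneg (norm_nonneg a) q
    have b0 := Real.rpow_nonneg (norm_nonneg b) q
    have a1 := (Real.rpow_eq_zero (norm_nonneg a) q0.ne').1 (by linarith)
    have b1 := (Real.rpow_eq_zero (norm_nonneg b) q0.ne').1 (by linarith)
    simp [norm_eq_zero.1 a1, norm_eq_zero.1 b1, Real.zero_rpow q0.ne']
  set S := ‖a‖ ^ q + ‖b‖ ^ q with hS
  have sc : ∀ x : ℝ, ‖S ^ (-q⁻¹) * x‖ ^ q = S⁻¹ * ‖x‖ ^ q := fun x => by
    rw [norm_mul, Real.mul_rpow (norm_nonneg _) (norm_nonneg _), Real.norm_of_nonneg (by positivity),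
      ← Real.rpow_mul h.le, neg_mul, inv_mul_cancel₀ q0.ne', Real.rpow_neg_one]
  have := key (S ^ (-q⁻¹) * a) (S ^ (-q⁻¹) * b) (by rw [sc, sc, ← mul_add, inv_mul_cancel₀ h.ne'])
  simp only [G, ← mul_sub, ← mul_add, smul_eq_mul, mul_left_comm (2 : ℝ)⁻¹, sc] at this
  have := mul_le_mul_of_nonneg_left this h.le
  simp only [smul_eq_mul]
  field_simp at this ⊢
  linarith

theorem uc_lp (p : ℝ≥0∞) [Fact (1 ≤ p)] (hq : 1 < p.toReal) (ι : Type*) :
    UC (lp (fun _ : ι => ℝ) p) p.toReal := by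
  intro ε hε
  obtain ⟨C, C0, h⟩ := uc_real hq ε hε
  have s := fun x : lp (fun _ : ι => ℝ) p => lp.hasSum_norm (by linarith) x
  exact ⟨C, C0, fun x y => hasSum_le (fun i => h (x i) (y i)) (s (x - y))
    ((((((s x).add (s y)).sub ((s ((2 : ℝ)⁻¹ • (x + y))).mul_left 2)).mul_left C).add
      (((s x).add (s y)).mul_left ε)))⟩

theorem uc_Lp (p : ℝ≥0∞) [Fact (1 ≤ p)] (hq : 1 < p.toReal) {α : Type*} [MeasurableSpace α]
    (μ : Measure α) : UC (Lp ℝ p μ) p.toReal := by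
  intro ε hε
  obtain ⟨C, C0, h⟩ := uc_real hq ε hε
  have p0 : p ≠ 0 := by rintro rfl; norm_num at hq
  have p1 : p ≠ ∞ := by rintro rfl; norm_num at hq
  have i := fun x : Lp ℝ p μ => (Lp.memLp x).integrable_norm_rpow p0 p1
  have s : ∀ x : Lp ℝ p μ, ‖x‖ ^ p.toReal = ∫ a, ‖x a‖ ^ p.toReal ∂μ := fun x => by
    have : 0 ≤ ∫ a, ‖x a‖ ^ p.toReal ∂μ := integral_nonneg fun a => by positivity
    rw [Lp.norm_def, (Lp.memLp x).eLpNorm_eq_integral_rpow_norm p0 p1,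
      ENNReal.toReal_ofReal (by positivity), Real.rpow_inv_rpow this (by linarith)]
  refine ⟨C, C0, fun x y => ?_⟩
  simp only [s]
  have i1 : Integrable (fun a => ‖x a‖ ^ p.toReal + ‖y a‖ ^ p.toReal) μ := (i x).add (i y)
  have i2 : Integrable (fun a => ‖x a‖ ^ p.toReal + ‖y a‖ ^ p.toReal -
      2 * ‖((2 : ℝ)⁻¹ • (x + y)) a‖ ^ p.toReal) μ := i1.sub ((i _).const_mul 2)
  rw [← integral_add (i x) (i y), ← integral_const_mul, ← integral_const_mul ε,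
    ← integral_sub i1 ((i _).const_mul 2), ← integral_const_mul,
    ← integral_add (i2.const_mul C) (i1.const_mul ε)]
  refine integral_mono_ae (i _) ((i2.const_mul C).add (i1.const_mul ε)) ?_
  filter_upwards [Lp.coeFn_sub x y, Lp.coeFn_smul (2 : ℝ)⁻¹ (x + y), Lp.coeFn_add x y]
    with a e1 e2 e3
  simp only [Pi.add_apply, Pi.sub_apply, e1, e2, Pi.smul_apply, e3]
  exact h _ _

/-- decreasing bounded midpoint convex sets carry a convergent selection -/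
theorem select {E : Type*} [NormedAddCommGroup E] [NormedSpace ℝ E] [CompleteSpace E] {q : ℝ}
    (q0 : 0 < q) (h : UC E q) (S : ℕ → Set E) (ha : Antitone S) (hn : ∀ k, (S k).Nonempty) {M : ℝ}
    (hM : ∀ x ∈ S 0, ‖x‖ ≤ M) (hc : ∀ k, ∀ x ∈ S k, ∀ y ∈ S k, (2 : ℝ)⁻¹ • (x + y) ∈ S k) :
    ∃ (y : ℕ → E) (z : E), (∀ k, y k ∈ S k) ∧ Tendsto y atTop (𝓝 z) := by
  let d : ℕ → ℝ := fun k => sInf ((fun x => ‖x‖ ^ q) '' S k)
  have bb : ∀ k, BddBelow ((fun x => ‖x‖ ^ q) '' S k) := fun k =>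
    ⟨0, by rintro _ ⟨x, -, rfl⟩; positivity⟩
  have dl : ∀ k, ∀ x ∈ S k, d k ≤ ‖x‖ ^ q := fun k x hx => csInf_le (bb k) ⟨x, hx, rfl⟩
  have bM : ∀ k, ∀ x ∈ S k, ‖x‖ ^ q ≤ M ^ q := fun k x hx =>
    Real.rpow_le_rpow (norm_nonneg _) (hM x (ha (Nat.zero_le k) hx)) q0.le
  have dm : Monotone d := fun j k hjk => csInf_le_csInf (bb j) ((hn k).image _)
    (image_mono (ha hjk))
  have db : BddAbove (range d) := ⟨M ^ q, by
    rintro _ ⟨k, rfl⟩; obtain ⟨x, hx⟩ := hn k; exact (dl k x hx).trans (bM k x hx)⟩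
  have ex : ∀ k : ℕ, ∃ x ∈ S k, ‖x‖ ^ q < d k + 1 / (k + 1) := fun k => by
    obtain ⟨_, ⟨x, hx, rfl⟩, l⟩ := exists_lt_of_csInf_lt ((hn k).image fun x => ‖x‖ ^ q)
      (lt_add_of_pos_right (d k) (Nat.one_div_pos_of_nat (n := k)))
    exact ⟨x, hx, l⟩
  choose y y1 y2 using ex
  suffices CauchySeq y from (cauchySeq_tendsto_of_complete this).elim fun z hz => ⟨y, z, y1, hz⟩
  rw [Metric.cauchySeq_iff']
  intro δ hδ
  have M0 : 0 ≤ M ^ q := le_trans (by positivity) (bM 0 _ (y1 0))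
  have dq : 0 < δ ^ q := by positivity
  obtain ⟨C, C0, hC⟩ := h (δ ^ q / (4 * (M ^ q + 1))) (by positivity)
  have t : Tendsto (fun k : ℕ => C * (2 * ((⨆ i, d i) - d k + 1 / (k + 1)))) atTop
      (𝓝 (C * (2 * ((⨆ i, d i) - (⨆ i, d i) + 0)))) :=
    ((((tendsto_atTop_ciSup dm db).const_sub _).add
      tendsto_one_div_add_atTop_nhds_zero_nat).const_mul 2).const_mul C
  rw [sub_self, add_zero, mul_zero, mul_zero] at t
  obtain ⟨N, hN⟩ := (t.eventually_lt_const (half_pos dq)).exists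
  refine ⟨N, fun n hn => ?_⟩
  rw [dist_eq_norm, ← Real.rpow_lt_rpow_iff (norm_nonneg _) hδ.le q0]
  have a1 := dl N _ (hc N _ (ha hn (y1 n)) _ (y1 N))
  have a2 : 1 / ((n : ℝ) + 1) ≤ 1 / (N + 1) := Nat.one_div_le_one_div hn
  have a3 := le_ciSup db n
  have a4 := le_ciSup db N
  have b1 : C * (‖y n‖ ^ q + ‖y N‖ ^ q - 2 * ‖(2 : ℝ)⁻¹ • (y n + y N)‖ ^ q) ≤
      C * (2 * ((⨆ i, d i) - d N + 1 / (N + 1))) :=
    mul_le_mul_of_nonneg_left (by linarith [y2 n, y2 N]) C0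
  have b2 : δ ^ q / (4 * (M ^ q + 1)) * (‖y n‖ ^ q + ‖y N‖ ^ q) ≤
      δ ^ q / (4 * (M ^ q + 1)) * (2 * (M ^ q + 1)) :=
    mul_le_mul_of_nonneg_left (by linarith [bM _ _ (y1 n), bM _ _ (y1 N)]) (by positivity)
  rw [show δ ^ q / (4 * (M ^ q + 1)) * (2 * (M ^ q + 1)) = δ ^ q / 2 by field_simp; ring] at b2
  linarith [hC (y n) (y N)]

end Pool.Agent.Lib.helper9.UCLp
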